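import Mathlib

set_option autoImplicit false

namespace Pool.Agent.W8.K2

/-- Best approximation with denominator at most `N`. -/
theorem exists_best (y : ℝ) (N : ℕ) (hN : 1 ≤ N) :
    ∃ g : ℕ, ∃ h : ℤ, 1 ≤ g ∧ g ≤ N ∧ IsCoprime (g : ℤ) h ∧
      ∀ n : ℕ, 1 ≤ n → n ≤ N → ∀ k : ℤ, |(g : ℝ) * y - h| ≤ |(n : ℝ) * y - k| := by
  classical
  have hex : ∃ g : ℕ, 1 ≤ g ∧ g ≤ N ∧ ∃ h : ℤ, ∀ n : ℕ, 1 ≤ n → n ≤ N → ∀ k : ℤ,
      |(g : ℝ) * y - h| ≤ |(n : ℝ) * y - k| := by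
    obtain ⟨g, hg, hmin⟩ := Finset.exists_min_image (Finset.Icc 1 N)
      (fun n : ℕ => |(n : ℝ) * y - round ((n : ℝ) * y)|) ⟨1, by simp [hN]⟩
    rw [Finset.mem_Icc] at hg
    refine ⟨g, hg.1, hg.2, round ((g : ℝ) * y), fun n hn1 hn2 k => ?_⟩
    exact (hmin n (Finset.mem_Icc.2 ⟨hn1, hn2⟩)).trans (round_le _ _)
  obtain ⟨hg1, hgN, h, hh⟩ := Nat.find_spec hex
  refine ⟨Nat.find hex, h, hg1, hgN, ?_, hh⟩
  set g := Nat.find hex with hg
  rw [Int.isCoprime_iff_gcd_eq_one]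
  by_contra hne
  set d := Int.gcd (g : ℤ) h with hd
  have hdpos : 0 < d := by
    rw [hd]; exact Int.gcd_pos_of_ne_zero_left _ (by exact_mod_cast (by omega : g ≠ 0))
  have hd2 : 2 ≤ d := by omega
  obtain ⟨g0', hg0'⟩ : (d : ℤ) ∣ (g : ℤ) := Int.gcd_dvd_left ..
  obtain ⟨h0, hh0⟩ : (d : ℤ) ∣ h := Int.gcd_dvd_right ..
  obtain ⟨g0, hg0⟩ : ∃ g0 : ℕ, g = d * g0 := by
    have : d ∣ g := by exact_mod_cast (Int.gcd_dvd_left (a := (g : ℤ)) (b := h))
    exact this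
  have hg00 : g0' = (g0 : ℤ) := by
    have : (d : ℤ) * g0' = d * g0 := by rw [← hg0', hg0]; push_cast; ring
    exact mul_left_cancel₀ (by exact_mod_cast hdpos.ne') this
  have hg0pos : 1 ≤ g0 := by
    rcases Nat.eq_zero_or_pos g0 with h0' | h0'
    · rw [h0', Nat.mul_zero] at hg0; omega
    · exact h0'
  have hlt : g0 < g := by
    rw [hg0]; nlinarith
  refine Nat.find_min hex hlt ⟨hg0pos, by omega, h0, fun n hn1 hn2 k => ?_⟩
  refine le_trans ?_ (hh n hn1 hn2 k)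
  have e1 : ((g : ℝ)) * y - h = d * ((g0 : ℝ) * y - h0) := by
    have : (g : ℝ) = d * g0 := by exact_mod_cast hg0
    have h2 : (h : ℝ) = d * h0 := by exact_mod_cast hh0
    rw [this, h2]; ring
  rw [e1, abs_mul]
  have : (1 : ℝ) ≤ |(d : ℝ)| := by
    rw [abs_of_pos (by exact_mod_cast hdpos)]; exact_mod_cast hdpos
  nlinarith [abs_nonneg ((g0 : ℝ) * y - h0)]

/-- a finite set of naturals which all differ by multiples of `g` -/
theorem card_fiber {N g : ℕ} {h : ℤ} {y s : ℝ} (hg : 1 ≤ g) (hgN : g ≤ N)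
    (hcop : IsCoprime (g : ℤ) h) (hP : |(g : ℝ) * y - h| ≤ s)
    (κ : ℕ → ℤ) (F : Finset ℕ) (hF : ∀ n ∈ F, 1 ≤ n ∧ n ≤ N ∧ |(n : ℝ) * y - κ n| ≤ s)
    (c : ℤ) (hc : ∀ n ∈ F, (g : ℤ) * κ n - h * n = c) :
    (F.card : ℝ) * g ≤ 2 * N ∧ (F.card : ℝ) * |(g : ℝ) * y - h| ≤ 3 * s := by
  classical
  have hs : 0 ≤ s := (abs_nonneg _).trans hP
  rcases F.eq_empty_or_nonempty with rfl | hne
  · simp
    positivity
  set n0 := F.min' hne with hn0
  set n1 := F.max' hne with hn1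
  have hn0F : n0 ∈ F := F.min'_mem hne
  have hn1F : n1 ∈ F := F.max'_mem hne
  have key : ∀ n ∈ F, ∃ j : ℕ, n = n0 + g * j ∧ κ n = κ n0 + h * j := by
    intro n hn
    have hle : n0 ≤ n := F.min'_le n hn
    have e1 : (g : ℤ) * (κ n - κ n0) = h * ((n : ℤ) - n0) := by
      have := hc n hn
      have := hc n0 hn0F
      linarith
    have hdvd : (g : ℤ) ∣ ((n : ℤ) - n0) := by
      have : (g : ℤ) ∣ h * ((n : ℤ) - n0) := ⟨_, e1.symm⟩
      exact hcop.dvd_of_dvd_mul_left this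
    obtain ⟨j, hj⟩ := hdvd
    have hjnn : 0 ≤ j := by
      by_contra hneg
      push Not at hneg
      have : (g : ℤ) * j < 0 := by
        apply mul_neg_of_pos_of_neg (by exact_mod_cast hg) hneg
      have h3 : (n0 : ℤ) ≤ n := by exact_mod_cast hle
      linarith
    obtain ⟨j', rfl⟩ := Int.eq_ofNat_of_zero_le hjnn
    refine ⟨j', ?_, ?_⟩
    · have : (n : ℤ) = n0 + g * j' := by linarith
      exact_mod_cast this
    · have hg0 : (g : ℤ) ≠ 0 := by exact_mod_cast (by omega : g ≠ 0)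
      have : (g : ℤ) * (κ n - κ n0) = g * (h * j') := by rw [e1, hj]; ring
      have := mul_left_cancel₀ hg0 this
      linarith
  obtain ⟨J, hJ1, hJ2⟩ := key n1 hn1F
  have hcard : F.card ≤ J + 1 := by
    have hsub : F ⊆ (Finset.range (J + 1)).image (fun j => n0 + g * j) := by
      intro n hn
      obtain ⟨j, hj1, hj2⟩ := key n hn
      rw [Finset.mem_image]
      refine ⟨j, ?_, hj1.symm⟩
      rw [Finset.mem_range]
      have hle : n ≤ n1 := F.le_max' n hn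
      rw [hj1, hJ1] at hle
      have : g * j ≤ g * J := by omega
      have := Nat.le_of_mul_le_mul_left this (by omega)
      omega
    calc F.card ≤ ((Finset.range (J + 1)).image (fun j => n0 + g * j)).card :=
          Finset.card_le_card hsub
      _ ≤ (Finset.range (J + 1)).card := Finset.card_image_le
      _ = J + 1 := Finset.card_range _
  have hcardR : (F.card : ℝ) ≤ J + 1 := by exact_mod_cast hcard
  obtain ⟨ha1, ha2, ha3⟩ := hF n1 hn1F
  obtain ⟨hb1, hb2, hb3⟩ := hF n0 hn0F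
  constructor
  · have h1 : (F.card : ℝ) * g ≤ (J + 1) * g := by
      apply mul_le_mul_of_nonneg_right hcardR (by positivity)
    have h2 : ((J : ℝ) + 1) * g ≤ 2 * N := by
      have : g * J + g ≤ 2 * N := by omega
      have h3 : ((g * J + g : ℕ) : ℝ) ≤ ((2 * N : ℕ) : ℝ) := by exact_mod_cast this
      push_cast at h3
      linarith
    linarith
  · set θ := |(g : ℝ) * y - h| with hθ
    have hθ0 : 0 ≤ θ := abs_nonneg _
    have h1 : (F.card : ℝ) * θ ≤ (J + 1) * θ := mul_le_mul_of_nonneg_right hcardR hθ0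
    have h2 : (J : ℝ) * θ ≤ 2 * s := by
      have e : ((J : ℝ)) * ((g : ℝ) * y - h) = ((n1 : ℝ) * y - κ n1) - ((n0 : ℝ) * y - κ n0) := by
        have e1 : (n1 : ℝ) = n0 + g * J := by exact_mod_cast hJ1
        have e2 : (κ n1 : ℝ) = κ n0 + h * J := by exact_mod_cast hJ2
        rw [e1, e2]; ring
      have : (J : ℝ) * θ = |((n1 : ℝ) * y - κ n1) - ((n0 : ℝ) * y - κ n0)| := by
        rw [← e, abs_mul, Nat.abs_cast]
      rw [this]
      calc _ ≤ |((n1 : ℝ) * y - κ n1)| + |((n0 : ℝ) * y - κ n0)| := abs_sub _ _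
        _ ≤ s + s := add_le_add ha3 hb3
        _ = 2 * s := by ring
    nlinarith

/-- The key lattice point count. -/
theorem card_le {N g : ℕ} {h : ℤ} {y s : ℝ} (hg : 1 ≤ g) (hgN : g ≤ N)
    (hcop : IsCoprime (g : ℤ) h) (hP : |(g : ℝ) * y - h| ≤ s)
    (κ : ℕ → ℤ) (B : Finset ℕ) (hB : ∀ n ∈ B, 1 ≤ n ∧ n ≤ N ∧ |(n : ℝ) * y - κ n| ≤ s)
    (hne : ∃ n k, 1 ≤ n ∧ n ≤ N ∧ |((n : ℕ) : ℝ) * y - (k : ℤ)| ≤ s ∧ (g : ℤ) * k ≠ h * n) :
    (B.card : ℝ) ≤ 15 * N * s := by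
  classical
  have hs : 0 ≤ s := (abs_nonneg _).trans hP
  set θ := |(g : ℝ) * y - h| with hθ
  have hθ0 : 0 ≤ θ := abs_nonneg _
  set L : ℝ := g * s + N * θ with hL
  have hcb : ∀ (n : ℕ) (k : ℤ), n ≤ N → |(n : ℝ) * y - k| ≤ s → |(((g : ℤ) * k - h * n : ℤ) : ℝ)| ≤ L := by
    intro n k hn hk
    have e : (((g : ℤ) * k - h * n : ℤ) : ℝ) = -(g * ((n : ℝ) * y - k)) + n * ((g : ℝ) * y - h) := by
      push_cast; ring
    rw [e]
    calc _ ≤ |-(g * ((n : ℝ) * y - k))| + |n * ((g : ℝ) * y - h)| := abs_add_le _ _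
      _ = g * |(n : ℝ) * y - k| + n * θ := by
          rw [abs_neg, abs_mul, abs_mul, Nat.abs_cast, Nat.abs_cast]
      _ ≤ g * s + N * θ := by
          apply add_le_add
          · exact mul_le_mul_of_nonneg_left hk (by positivity)
          · exact mul_le_mul_of_nonneg_right (by exact_mod_cast hn) hθ0
  have hL1 : 1 ≤ L := by
    obtain ⟨n, k, h1, h2, h3, h4⟩ := hne
    refine le_trans ?_ (hcb n k h2 h3)
    have : (g : ℤ) * k - h * n ≠ 0 := sub_ne_zero.2 h4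
    have := Int.one_le_abs this
    exact_mod_cast this
  set c : ℕ → ℤ := fun n => (g : ℤ) * κ n - h * n with hc
  set m : ℕ := (B.image c).sup (fun z => (B.filter (fun n => c n = z)).card) with hm
  have hmb : (m : ℝ) * g ≤ 2 * N ∧ (m : ℝ) * θ ≤ 3 * s := by
    rcases (B.image c).eq_empty_or_nonempty with h0 | h0
    · rw [h0] at hm
      simp only [Finset.sup_empty] at hm
      rw [hm]
      simp
      positivity
    · obtain ⟨z, hz, hz2⟩ := Finset.exists_mem_eq_sup (B.image c) h0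
        (fun z => (B.filter (fun n => c n = z)).card)
      rw [hm, hz2]
      exact card_fiber hg hgN hcop hP κ _ (fun n hn => hB n (Finset.mem_filter.1 hn).1) z
        (fun n hn => (Finset.mem_filter.1 hn).2)
  have hcard : B.card ≤ m * (B.image c).card := by
    apply Finset.card_le_mul_card_image
    intro z hz
    exact Finset.le_sup (f := fun z => (B.filter (fun n => c n = z)).card) hz
  have himg : ((B.image c).card : ℝ) ≤ 3 * L := by
    have hsub : B.image c ⊆ Finset.Icc (-⌊L⌋) ⌊L⌋ := by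
      intro z hz
      obtain ⟨n, hn, rfl⟩ := Finset.mem_image.1 hz
      obtain ⟨h1, h2, h3⟩ := hB n hn
      have h4 := hcb n (κ n) h2 h3
      rw [Finset.mem_Icc]
      rw [abs_le] at h4
      constructor
      · have : -(c n : ℤ) ≤ ⌊L⌋ := by
          rw [Int.le_floor]; push_cast; push_cast [hc] at h4 ⊢; linarith
        linarith
      · rw [Int.le_floor]; exact h4.2
    have h5 := Finset.card_le_card hsub
    rw [Int.card_Icc] at h5
    have h6 : (0 : ℤ) ≤ ⌊L⌋ := Int.floor_nonneg.2 (by linarith)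
    have h7 : ((B.image c).card : ℤ) ≤ 2 * ⌊L⌋ + 1 := by
      have : ((⌊L⌋ + 1 - -⌊L⌋).toNat : ℤ) = 2 * ⌊L⌋ + 1 := by
        rw [Int.toNat_of_nonneg (by linarith)]; ring
      rw [← this]; exact_mod_cast h5
    have h8 : ((B.image c).card : ℝ) ≤ 2 * ⌊L⌋ + 1 := by exact_mod_cast h7
    have h9 : (⌊L⌋ : ℝ) ≤ L := Int.floor_le L
    linarith
  have hm0 : (0 : ℝ) ≤ m := by positivity
  calc (B.card : ℝ) ≤ m * (B.image c).card := by exact_mod_cast hcard
    _ ≤ m * (3 * L) := mul_le_mul_of_nonneg_left himg hm0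
    _ = 3 * ((m * g) * s + N * (m * θ)) := by rw [hL]; ring
    _ ≤ 3 * ((2 * N) * s + N * (3 * s)) := by
        have h1 : (m * g : ℝ) * s ≤ (2 * N) * s := mul_le_mul_of_nonneg_right hmb.1 hs
        have h2 : (N : ℝ) * (m * θ) ≤ N * (3 * s) :=
          mul_le_mul_of_nonneg_left hmb.2 (by positivity)
        linarith
    _ = 15 * N * s := by ring

end Pool.Agent.W8.K2
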