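import Pool.Agent.W8.K2.Sets

set_option autoImplicit false

open MeasureTheory Set

namespace Pool.Agent.W8.K2

theorem cs {α : Type*} [MeasurableSpace α] (μ : Measure α) {V : Set α} (hV : MeasurableSet V)
    (hVf : μ V ≠ ⊤) (J : Finset ℕ) (B : ℕ → Set α) (hB : ∀ q, MeasurableSet (B q))
    (hBV : ∀ q ∈ J, B q ⊆ V) {c : ℝ} (hc : 0 < c) :
    2 * ∑ q ∈ J, μ.real (B q) ≤ c * μ.real V + (1 / c) * ∑ q ∈ J, ∑ r ∈ J, μ.real (B q ∩ B r) := by
  classical
  have hint : ∀ s : Set α, MeasurableSet s → s ⊆ V → Integrable (s.indicator (1 : α → ℝ)) μ := by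
    intro s hs hsV
    rw [integrable_indicator_iff hs]
    exact integrableOn_const (lt_of_le_of_lt (measure_mono hsV) hVf.lt_top).ne
  have h1 : ∀ q ∈ J, Integrable ((B q).indicator (1 : α → ℝ)) μ := fun q hq =>
    hint _ (hB q) (hBV q hq)
  have h2 : ∀ q ∈ J, ∀ r ∈ J, Integrable ((B q ∩ B r).indicator (1 : α → ℝ)) μ :=
    fun q hq r _ => hint _ ((hB q).inter (hB r)) (inter_subset_left.trans (hBV q hq))
  have h3 : Integrable (V.indicator (1 : α → ℝ)) μ := hint _ hV Subset.rfl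
  have i1 : Integrable (fun x => ∑ q ∈ J, (B q).indicator (1 : α → ℝ) x) μ :=
    integrable_finsetSum _ h1
  have i2 : Integrable (fun x => ∑ q ∈ J, ∑ r ∈ J, (B q ∩ B r).indicator (1 : α → ℝ) x) μ :=
    integrable_finsetSum _ fun q hq => integrable_finsetSum _ fun r hr => h2 q hq r hr
  have key : 0 ≤ ∫ x, ((∑ q ∈ J, ∑ r ∈ J, (B q ∩ B r).indicator (1 : α → ℝ) x) -
      2 * c * (∑ q ∈ J, (B q).indicator (1 : α → ℝ) x) + c ^ 2 * V.indicator (1 : α → ℝ) x) ∂μ := by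
    apply integral_nonneg
    intro x
    simp only [Pi.zero_apply]
    by_cases hx : x ∈ V
    · have e1 : ∑ q ∈ J, ∑ r ∈ J, (B q ∩ B r).indicator (1 : α → ℝ) x =
          (∑ q ∈ J, (B q).indicator (1 : α → ℝ) x) ^ 2 := by
        rw [sq, Finset.sum_mul_sum]
        apply Finset.sum_congr rfl
        intro q _
        apply Finset.sum_congr rfl
        intro r _
        rw [Set.inter_indicator_one]
        rfl
      rw [e1, Set.indicator_of_mem hx]
      simp only [Pi.one_apply]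
      nlinarith [sq_nonneg ((∑ q ∈ J, (B q).indicator (1 : α → ℝ) x) - c)]
    · have e0 : ∀ q ∈ J, (B q).indicator (1 : α → ℝ) x = 0 := fun q hq =>
        Set.indicator_of_notMem (fun h => hx (hBV q hq h)) _
      have e1 : ∑ q ∈ J, (B q).indicator (1 : α → ℝ) x = 0 := Finset.sum_eq_zero e0
      have e2 : ∑ q ∈ J, ∑ r ∈ J, (B q ∩ B r).indicator (1 : α → ℝ) x = 0 := by
        apply Finset.sum_eq_zero
        intro q hq
        apply Finset.sum_eq_zero
        intro r _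
        exact Set.indicator_of_notMem (fun h => hx (hBV q hq h.1)) _
      rw [e1, e2, Set.indicator_of_notMem hx]
      simp
  have i12 : Integrable (fun x => (∑ q ∈ J, ∑ r ∈ J, (B q ∩ B r).indicator (1 : α → ℝ) x) -
      2 * c * (∑ q ∈ J, (B q).indicator (1 : α → ℝ) x)) μ := i2.sub (i1.const_mul _)
  have i3 : Integrable (fun x => c ^ 2 * V.indicator (1 : α → ℝ) x) μ := h3.const_mul _
  rw [integral_add i12 i3,
    integral_sub i2 (i1.const_mul _), integral_const_mul, integral_const_mul,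
    integral_finsetSum _ h1, integral_finsetSum _
      (fun q hq => integrable_finsetSum _ fun r hr => h2 q hq r hr),
    integral_indicator_one hV] at key
  have e1 : ∀ q ∈ J, ∫ x, (B q).indicator (1 : α → ℝ) x ∂μ = μ.real (B q) :=
    fun q _ => integral_indicator_one (hB q)
  have e2 : ∀ q ∈ J, ∫ x, ∑ r ∈ J, (B q ∩ B r).indicator (1 : α → ℝ) x ∂μ =
      ∑ r ∈ J, μ.real (B q ∩ B r) := by
    intro q hq
    rw [integral_finsetSum _ (fun r hr => h2 q hq r hr)]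
    apply Finset.sum_congr rfl
    intro r _
    exact integral_indicator_one ((hB q).inter (hB r))
  rw [Finset.sum_congr rfl e1, Finset.sum_congr rfl e2] at key
  have hc' : c * (1 / c) = 1 := by field_simp
  have h5 := mul_nonneg (one_div_pos.2 hc).le key
  have h6 : (1 / c) * ((∑ q ∈ J, ∑ r ∈ J, μ.real (B q ∩ B r)) -
      2 * c * (∑ q ∈ J, μ.real (B q)) + c ^ 2 * μ.real V) =
      (1 / c) * (∑ q ∈ J, ∑ r ∈ J, μ.real (B q ∩ B r)) - 2 * (∑ q ∈ J, μ.real (B q)) +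
      c * μ.real V := by
    field_simp
  rw [h6] at h5
  linarith

/-- grid square -/
def Gs (m : ℕ) (p : ℕ × ℕ) : Set (ℝ × ℝ) :=
  Ico ((p.1 : ℝ) / m) ((p.1 + 1 : ℝ) / m) ×ˢ Ico ((p.2 : ℝ) / m) ((p.2 + 1 : ℝ) / m)

theorem measurableSet_Gs (m : ℕ) (p : ℕ × ℕ) : MeasurableSet (Gs m p) :=
  measurableSet_Ico.prod measurableSet_Ico

theorem Gs_disjoint {m : ℕ} (hm : 1 ≤ m) {p p' : ℕ × ℕ} (h : p ≠ p') : Disjoint (Gs m p) (Gs m p') := by
  have hm0 : (0 : ℝ) < m := by exact_mod_cast hm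
  have aux : ∀ (x : ℝ) (i j : ℕ), x ∈ Ico ((i : ℝ) / m) ((i + 1 : ℝ) / m) →
      x ∈ Ico ((j : ℝ) / m) ((j + 1 : ℝ) / m) → i = j := by
    intro x i j hi hj
    rw [mem_Ico, div_le_iff₀ hm0, lt_div_iff₀ hm0] at hi hj
    have h1 : (i : ℝ) < j + 1 := by linarith
    have h2 : (j : ℝ) < i + 1 := by linarith
    have h3 : i < j + 1 := by exact_mod_cast h1
    have h4 : j < i + 1 := by exact_mod_cast h2
    omega
  rw [Set.disjoint_left]
  intro x hx hx'
  exact h (Prod.ext (aux _ _ _ hx.1 hx'.1) (aux _ _ _ hx.2 hx'.2))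

theorem volume_Gs {m : ℕ} (hm : 1 ≤ m) (p : ℕ × ℕ) :
    volume (Gs m p) = ENNReal.ofReal (1 / (m : ℝ) ^ 2) := by
  have hm0 : (0 : ℝ) < m := by exact_mod_cast hm
  rw [Gs, Measure.volume_eq_prod, Measure.prod_prod, Real.volume_Ico, Real.volume_Ico,
    ← ENNReal.ofReal_mul (by rw [sub_nonneg]; exact div_le_div_of_nonneg_right (by linarith) hm0.le)]
  congr 1
  field_simp
  ring

/-- finite union of grid squares -/
def GU (m : ℕ) (I : Finset (ℕ × ℕ)) : Set (ℝ × ℝ) := ⋃ p ∈ I, Gs m p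

theorem measurableSet_GU (m : ℕ) (I : Finset (ℕ × ℕ)) : MeasurableSet (GU m I) :=
  Finset.measurableSet_biUnion _ fun p _ => measurableSet_Gs m p

theorem volume_GU {m : ℕ} (hm : 1 ≤ m) (I : Finset (ℕ × ℕ)) :
    volume (GU m I) = ENNReal.ofReal (I.card * (1 / (m : ℝ) ^ 2)) := by
  rw [GU, measure_biUnion_finset]
  · rw [Finset.sum_congr rfl (fun p _ => volume_Gs hm p), Finset.sum_const, nsmul_eq_mul,
      ← ENNReal.ofReal_natCast, ← ENNReal.ofReal_mul (by positivity)]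
  · intro p _ p' _ h
    exact Gs_disjoint hm h
  · intro p _
    exact measurableSet_Gs m p

theorem E_low {y : ℝ × ℝ} {m q : ℕ} (hm : 1 ≤ m) (hq : 8 * m ≤ q) {t : ℝ} (ht0 : 0 ≤ t)
    (ht : t ≤ 1 / 2) (I : Finset (ℕ × ℕ)) :
    ENNReal.ofReal (2 * t ^ 2 * (I.card * (1 / (m : ℝ) ^ 2))) ≤ volume (E y q t ∩ GU m I) := by
  have hm0 : (0 : ℝ) < m := by exact_mod_cast hm
  have hq1 : 1 ≤ q := by omega
  have hq0 : (0 : ℝ) < q := by exact_mod_cast hq1
  have hqm : (8 : ℝ) * m ≤ q := by exact_mod_cast hq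
  have e : E y q t ∩ GU m I = ⋃ p ∈ I, (E y q t ∩ Gs m p) := by
    rw [GU, inter_iUnion₂]
  rw [e, measure_biUnion_finset]
  · have h1 : ∀ p ∈ I, ENNReal.ofReal (2 * t ^ 2 * (1 / (m : ℝ) ^ 2)) ≤
        volume (E y q t ∩ Gs m p) := by
      intro p _
      rw [E, Gs, prod_inter_prod, Measure.volume_eq_prod, Measure.prod_prod]
      refine le_trans ?_ (mul_le_mul' (low1 hq1 ht0 ht) (low1 hq1 ht0 ht))
      have h2 : 3 / 4 * (1 / (m : ℝ)) ≤ 1 / m - 2 / q := by
        have : 2 / (q : ℝ) ≤ 1 / 4 * (1 / m) := by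
          rw [div_le_iff₀ hq0]
          have : 1 / 4 * (1 / (m : ℝ)) * q = q / (4 * m) := by field_simp
          rw [this, le_div_iff₀ (by positivity)]
          linarith
        linarith
      have h3 : ∀ i : ℝ, (i + 1) / m - i / m - 2 / q = 1 / (m : ℝ) - 2 / q := by
        intro i; ring
      rw [h3, h3]
      have h4 : 0 ≤ 2 * t * (1 / (m : ℝ) - 2 / q) := by
        apply mul_nonneg (by positivity)
        refine le_trans ?_ h2
        positivity
      rw [← ENNReal.ofReal_mul h4]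
      apply ENNReal.ofReal_le_ofReal
      have h5 : 2 * t * (3 / 4 * (1 / (m : ℝ))) ≤ 2 * t * (1 / (m : ℝ) - 2 / q) :=
        mul_le_mul_of_nonneg_left h2 (by positivity)
      have h6 : 0 ≤ 2 * t * (3 / 4 * (1 / (m : ℝ))) := by positivity
      calc 2 * t ^ 2 * (1 / (m : ℝ) ^ 2) ≤ (2 * t * (3 / 4 * (1 / (m : ℝ)))) *
            (2 * t * (3 / 4 * (1 / (m : ℝ)))) := by
            have : (2 * t * (3 / 4 * (1 / (m : ℝ)))) *
              (2 * t * (3 / 4 * (1 / (m : ℝ)))) = 9 / 4 * (t ^ 2 * (1 / (m : ℝ) ^ 2)) := by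
              field_simp; ring
            rw [this]
            have h7 : 0 ≤ t ^ 2 * (1 / (m : ℝ) ^ 2) := by positivity
            linarith
        _ ≤ _ := mul_le_mul h5 h5 h6 h4
    refine le_trans ?_ (Finset.sum_le_sum h1)
    rw [Finset.sum_const, nsmul_eq_mul, ← ENNReal.ofReal_natCast,
      ← ENNReal.ofReal_mul (by positivity)]
    apply ENNReal.ofReal_le_ofReal
    apply le_of_eq
    ring
  · intro p _ p' _ h
    exact (Gs_disjoint hm h).mono inter_subset_right inter_subset_right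
  · intro p _
    exact (isOpen_E _ _ _).measurableSet.inter (measurableSet_Gs m p)

/-- approximation of a measurable set by a finite union of grid squares -/
theorem approx {F : Set (ℝ × ℝ)} (hF : MeasurableSet F) (hF1 : F ⊆ Ico 0 1 ×ˢ Ico 0 1)
    {ε : ENNReal} (hε : ε ≠ 0) :
    ∃ m : ℕ, 1 ≤ m ∧ ∃ I : Finset (ℕ × ℕ), GU m I ⊆ Sq ∧ volume (GU m I \ F) ≤ ε ∧
      volume F ≤ volume (GU m I) + ε := by
  classical
  have hFfin : volume F ≠ ⊤ := by
    have h1 : F ⊆ Sq := hF1.trans (prod_mono Ico_subset_Icc_self Ico_subset_Icc_self)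
    have h2 := measure_mono (μ := volume) h1
    rw [volume_Sq] at h2
    exact (lt_of_le_of_lt h2 ENNReal.one_lt_top).ne
  obtain ⟨K, hKF, hK, hKv⟩ := hF.exists_isCompact_lt_add hFfin hε
  obtain ⟨O, hKO, hO, hOv⟩ := K.exists_isOpen_lt_add (μ := volume) hK.measure_lt_top.ne hε
  obtain ⟨δ, hδ, hδO⟩ := hK.exists_thickening_subset_open hO hKO
  obtain ⟨n, hn⟩ := exists_nat_one_div_lt hδ
  set m := n + 1 with hm
  have hm1 : 1 ≤ m := by omega
  have hm0 : (0 : ℝ) < m := by exact_mod_cast hm1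
  have hmδ : 1 / (m : ℝ) < δ := by rw [hm]; push_cast; exact hn
  set I := (Finset.range m ×ˢ Finset.range m).filter (fun p => (Gs m p ∩ K).Nonempty) with hI
  have hUO : GU m I ⊆ O := by
    intro x hx
    simp only [GU, mem_iUnion] at hx
    obtain ⟨p, hp, hxp⟩ := hx
    rw [hI, Finset.mem_filter] at hp
    obtain ⟨z, hzp, hzK⟩ := hp.2
    apply hδO
    rw [Metric.mem_thickening_iff]
    refine ⟨z, hzK, lt_of_le_of_lt ?_ hmδ⟩
    rw [Prod.dist_eq]
    have aux : ∀ (i : ℕ) (a b : ℝ), a ∈ Ico ((i : ℝ) / m) ((i + 1 : ℝ) / m) →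
        b ∈ Ico ((i : ℝ) / m) ((i + 1 : ℝ) / m) → dist a b ≤ 1 / m := by
      intro i a b ha hb
      have h1 : ((i + 1 : ℝ)) / m = i / m + 1 / m := by ring
      rw [h1] at ha hb
      rw [Real.dist_eq, abs_le]
      constructor
      · linarith [ha.1, hb.2]
      · linarith [ha.2, hb.1]
    exact max_le (aux _ _ _ hxp.1 hzp.1) (aux _ _ _ hxp.2 hzp.2)
  have hKU : K ⊆ GU m I := by
    intro x hx
    have hx1 := hF1 (hKF hx)
    have aux : ∀ a : ℝ, a ∈ Ico (0 : ℝ) 1 → ⌊a * m⌋₊ < m ∧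
        a ∈ Ico ((⌊a * m⌋₊ : ℝ) / m) ((⌊a * m⌋₊ + 1 : ℝ) / m) := by
      intro a ha
      have h0 : 0 ≤ a * m := mul_nonneg ha.1 hm0.le
      refine ⟨?_, ?_, ?_⟩
      · rw [Nat.floor_lt h0]
        nlinarith [ha.2]
      · rw [div_le_iff₀ hm0]
        exact Nat.floor_le h0
      · rw [lt_div_iff₀ hm0]
        exact Nat.lt_floor_add_one _
    obtain ⟨h1, h2⟩ := aux x.1 hx1.1
    obtain ⟨h3, h4⟩ := aux x.2 hx1.2
    have hmem : x ∈ Gs m (⌊x.1 * m⌋₊, ⌊x.2 * m⌋₊) := ⟨h2, h4⟩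
    simp only [GU, mem_iUnion]
    refine ⟨(⌊x.1 * m⌋₊, ⌊x.2 * m⌋₊), ?_, hmem⟩
    rw [hI, Finset.mem_filter, Finset.mem_product, Finset.mem_range, Finset.mem_range]
    exact ⟨⟨h1, h3⟩, x, hmem, hx⟩
  refine ⟨m, hm1, I, ?_, ?_, ?_⟩
  · intro x hx
    simp only [GU, mem_iUnion] at hx
    obtain ⟨p, hp, hxp⟩ := hx
    rw [hI, Finset.mem_filter, Finset.mem_product, Finset.mem_range, Finset.mem_range] at hp
    have aux : ∀ (i : ℕ) (a : ℝ), i < m → a ∈ Ico ((i : ℝ) / m) ((i + 1 : ℝ) / m) →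
        a ∈ Icc (0 : ℝ) 1 := by
      intro i a hi ha
      have hi' : (i : ℝ) + 1 ≤ m := by exact_mod_cast hi
      refine ⟨le_trans (by positivity) ha.1, ha.2.le.trans ?_⟩
      rw [div_le_one hm0]
      exact hi'
    exact ⟨aux _ _ hp.1.1 hxp.1, aux _ _ hp.1.2 hxp.2⟩
  · calc volume (GU m I \ F) ≤ volume (O \ K) := measure_mono (sdiff_subset_sdiff hUO hKF)
      _ = volume O - volume K := measure_sdiff hKO hK.measurableSet.nullMeasurableSet
          hK.measure_lt_top.ne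
      _ ≤ ε := by
          rw [tsub_le_iff_left]
          exact hOv.le
  · calc volume F ≤ volume K + ε := hKv.le
      _ ≤ volume (GU m I) + ε := by gcongr

end Pool.Agent.W8.K2
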