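import Pool.Agent.W8.K2.Sum
import Pool.Agent.W8.K2.Grid

set_option autoImplicit false

open MeasureTheory Set

namespace Pool.Agent.W8.K2

/-- The one-hit statement: for `ψ ≤ 1/2` with `∑ ψ² = ∞` almost every point lies in some `E_q`. -/
theorem one_hit (y : ℝ × ℝ) (ψ : ℕ → ℝ) (h0 : ∀ q, 0 ≤ ψ q) (h1 : ∀ q, ψ q ≤ 1 / 2)
    (hdiv : ¬ Summable (fun q => ψ q ^ 2)) :
    volume ((Ico (0 : ℝ) 1 ×ˢ Ico (0 : ℝ) 1) \ ⋃ q ∈ {q : ℕ | 1 ≤ q}, E y q (ψ q)) = 0 := by
  classical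
  set F : Set (ℝ × ℝ) := (Ico (0 : ℝ) 1 ×ˢ Ico (0 : ℝ) 1) \ ⋃ q ∈ {q : ℕ | 1 ≤ q}, E y q (ψ q)
    with hF
  have hFm : MeasurableSet F := by
    apply (measurableSet_Ico.prod measurableSet_Ico).diff
    exact (isOpen_biUnion fun q _ => isOpen_E y q (ψ q)).measurableSet
  have hF1 : F ⊆ Ico 0 1 ×ˢ Ico 0 1 := sdiff_subset
  have hFSq : F ⊆ Sq := hF1.trans (prod_mono Ico_subset_Icc_self Ico_subset_Icc_self)
  by_contra hne
  have hFfin : volume F ≠ ⊤ := by
    have h2 := measure_mono (μ := volume) hFSq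
    rw [volume_Sq] at h2
    exact (lt_of_le_of_lt h2 ENNReal.one_lt_top).ne
  set f : ℝ := volume.real F with hf
  have hf0 : 0 < f := ENNReal.toReal_pos hne hFfin
  set ε : ℝ := min (f / 2) (f ^ 2 / (16 * 41472)) with hε
  have hε0 : 0 < ε := lt_min (by positivity) (by positivity)
  have hε1 : ε ≤ f / 2 := min_le_left _ _
  have hε2 : ε ≤ f ^ 2 / (16 * 41472) := min_le_right _ _
  obtain ⟨m, hm, I, hUSq, hU1, hU2⟩ := approx hFm hF1
    (ε := ENNReal.ofReal ε) (by rw [Ne, ENNReal.ofReal_eq_zero, not_le]; exact hε0)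
  set U := GU m I with hU
  set v : ℝ := volume.real U with hv
  have hUfin : volume U ≠ ⊤ := by
    have h2 := measure_mono (μ := volume) hUSq
    rw [volume_Sq] at h2
    exact (lt_of_le_of_lt h2 ENNReal.one_lt_top).ne
  have hvf : f ≤ v + ε := by
    have h3 : (volume F).toReal ≤ (volume U + ENNReal.ofReal ε).toReal :=
      ENNReal.toReal_mono (by simp [hUfin]) hU2
    rw [ENNReal.toReal_add hUfin ENNReal.ofReal_ne_top, ENNReal.toReal_ofReal hε0.le] at h3
    exact h3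
  have hv1 : f / 2 ≤ v := by linarith
  have hv0 : 0 < v := by linarith
  set V := U \ F with hV
  have hVm : MeasurableSet V := (measurableSet_GU m I).diff hFm
  have hVSq : V ⊆ Sq := sdiff_subset.trans hUSq
  have hVfin : volume V ≠ ⊤ :=
    (lt_of_le_of_lt (measure_mono sdiff_subset) hUfin.lt_top).ne
  have hVε : volume.real V ≤ ε := by
    rw [Measure.real]
    exact ENNReal.toReal_le_of_le_ofReal hε0.le hU1
  obtain ⟨X, hX⟩ := exists_nat_ge (max 2 (144 / f))
  have hX2 : 2 ≤ X := by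
    have : (2 : ℝ) ≤ X := (le_max_left _ _).trans hX
    exact_mod_cast this
  have hXf : 144 / f ≤ X := (le_max_right _ _).trans hX
  have hX0 : (0 : ℝ) < X := by exact_mod_cast (by omega : 0 < X)
  set B : ℕ → Set (ℝ × ℝ) := fun q => EG y X q (ψ q) ∩ U with hB
  have hBm : ∀ q, MeasurableSet (B q) := fun q =>
    (isOpen_EG y X q (ψ q)).measurableSet.inter (measurableSet_GU m I)
  have hvU : volume U = ENNReal.ofReal (I.card * (1 / (m : ℝ) ^ 2)) := volume_GU hm I
  have hvU' : v = I.card * (1 / (m : ℝ) ^ 2) := by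
    rw [hv, Measure.real, hvU, ENNReal.toReal_ofReal (by positivity)]
  -- lower bound for the measure of the good sets
  have hlow : ∀ q, 8 * m ≤ q → v * ψ q ^ 2 ≤ volume.real (B q) := by
    intro q hq
    have hq1 : 1 ≤ q := by omega
    have l1 := E_low (y := y) hm hq (h0 q) (h1 q) I
    rw [← hvU'] at l1
    have l2 := E_diff_le (y := y) (X := X) hq1 hX2 (h0 q) (h1 q)
    have hsub : E y q (ψ q) ∩ U ⊆ B q ∪ ((E y q (ψ q) \ EG y X q (ψ q)) ∩ Sq) := by
      rintro x ⟨hx1, hx2⟩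
      by_cases hx : x ∈ EG y X q (ψ q)
      · exact Or.inl ⟨hx, hx2⟩
      · exact Or.inr ⟨⟨hx1, hx⟩, hUSq hx2⟩
    have l3 : ENNReal.ofReal (2 * ψ q ^ 2 * v) ≤
        volume (B q) + ENNReal.ofReal (72 * ψ q ^ 2 / X) :=
      l1.trans ((measure_mono hsub).trans ((measure_union_le _ _).trans (by gcongr)))
    have hBfin : volume (B q) ≠ ⊤ :=
      (lt_of_le_of_lt (measure_mono inter_subset_right) hUfin.lt_top).ne
    have l4 := ENNReal.toReal_mono (by simp [hBfin]) l3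
    rw [ENNReal.toReal_ofReal (by positivity), ENNReal.toReal_add hBfin ENNReal.ofReal_ne_top,
      ENNReal.toReal_ofReal (by positivity)] at l4
    have l5 : 72 * ψ q ^ 2 / X ≤ ψ q ^ 2 * v := by
      rw [div_le_iff₀ hX0]
      rw [div_le_iff₀ hf0] at hXf
      have : 72 ≤ v * X := by nlinarith
      have h3 : 0 ≤ ψ q ^ 2 := sq_nonneg _
      nlinarith
    change v * ψ q ^ 2 ≤ (volume (B q)).toReal
    linarith
  -- the sets are inside V
  have hBV : ∀ q, 1 ≤ q → B q ⊆ V := by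
    rintro q hq x ⟨hx1, hx2⟩
    refine ⟨hx2, fun hxF => hxF.2 ?_⟩
    simp only [mem_iUnion]
    exact ⟨q, hq, EG_subset_E _ _ _ _ hx1⟩
  set C2 : ℝ := 10404 + 576 * (X : ℝ) ^ 2 with hC2
  have hC20 : 0 < C2 := by positivity
  set τ : ℝ := 2 * 41472 / v with hτ
  have hτ0 : 0 < τ := by positivity
  -- bounded partial sums
  have hbdd : ∀ Q : ℕ, ∑ q ∈ Finset.Ico (8 * m) Q, ψ q ^ 2 ≤ C2 / (τ * v) := by
    intro Q
    set J := Finset.Ico (8 * m) Q with hJ
    set S := ∑ q ∈ J, ψ q ^ 2 with hS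
    have hS0 : 0 ≤ S := Finset.sum_nonneg fun q _ => sq_nonneg _
    rcases hS0.eq_or_lt with hz | hS0
    · rw [← hz]; positivity
    have hJ1 : ∀ q ∈ J, 1 ≤ q := by
      intro q hq
      rw [hJ, Finset.mem_Ico] at hq
      omega
    have hcs := cs volume hVm hVfin J B hBm (fun q hq => hBV q (hJ1 q hq)) (mul_pos hτ0 hS0)
    have hlo : v * S ≤ ∑ q ∈ J, volume.real (B q) := by
      rw [hS, Finset.mul_sum]
      apply Finset.sum_le_sum
      intro q hq
      rw [hJ, Finset.mem_Ico] at hq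
      exact hlow q hq.1
    have hup : ∑ q ∈ J, ∑ r ∈ J, volume.real (B q ∩ B r) ≤ 41472 * S ^ 2 + C2 * S := by
      refine le_trans ?_ (sum_le y X J hJ1 ψ h0 h1)
      apply Finset.sum_le_sum
      intro q hq
      apply Finset.sum_le_sum
      intro r hr
      rw [pp]
      apply measureReal_mono
      · rintro x ⟨⟨hx1, hx2⟩, hx3, -⟩
        exact ⟨⟨hx1, hx3⟩, hUSq hx2⟩
      · have h2 := measure_mono (μ := volume)
          (inter_subset_right : EG y X q (ψ q) ∩ EG y X r (ψ r) ∩ Sq ⊆ Sq)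
        rw [volume_Sq] at h2
        exact (lt_of_le_of_lt h2 ENNReal.one_lt_top).ne
    have e1 : 2 * (v * S) ≤ τ * S * ε + 1 / (τ * S) * (41472 * S ^ 2 + C2 * S) := by
      have a1 : τ * S * volume.real V ≤ τ * S * ε := mul_le_mul_of_nonneg_left hVε (by positivity)
      have a2 : 1 / (τ * S) * ∑ q ∈ J, ∑ r ∈ J, volume.real (B q ∩ B r) ≤
          1 / (τ * S) * (41472 * S ^ 2 + C2 * S) := mul_le_mul_of_nonneg_left hup (by positivity)
      linarith
    have e2 : 1 / (τ * S) * (41472 * S ^ 2 + C2 * S) = v / 2 * S + C2 / τ := by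
      rw [hτ]
      field_simp
    have e3 : τ * ε ≤ v / 2 := by
      have : τ * ε ≤ τ * (f ^ 2 / (16 * 41472)) := mul_le_mul_of_nonneg_left hε2 hτ0.le
      refine this.trans ?_
      rw [hτ]
      have e : 2 * 41472 / v * (f ^ 2 / (16 * 41472)) = f ^ 2 / (8 * v) := by field_simp; norm_num
      rw [e, div_le_iff₀ (by positivity)]
      nlinarith
    have e4 : τ * S * ε ≤ v / 2 * S := by nlinarith
    rw [le_div_iff₀ (by positivity)]
    have e5 : v * S ≤ C2 / τ := by rw [e2] at e1; linarith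
    rw [le_div_iff₀ hτ0] at e5
    linarith
  apply hdiv
  rw [← summable_nat_add_iff (8 * m)]
  apply summable_of_sum_range_le (c := C2 / (τ * v)) (fun q => sq_nonneg _)
  intro n
  have := hbdd (n + 8 * m)
  rw [Finset.sum_Ico_eq_sum_range] at this
  have e : n + 8 * m - 8 * m = n := by omega
  rw [e] at this
  refine le_trans (le_of_eq ?_) this
  apply Finset.sum_congr rfl
  intro i _
  rw [add_comm]

/-- Nonmonotonic inhomogeneous Khintchine theorem in dimension two. -/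
theorem main (y : ℝ × ℝ) (ψ : ℕ → ℝ) (h0 : ∀ q, 0 ≤ ψ q)
    (hdiv : ¬ Summable (fun q : ℕ => ψ q ^ 2)) :
    ∀ᵐ x ∂(volume.restrict (Icc (0 : ℝ × ℝ) 1)),
      {q : ℕ | 0 < q ∧ ∃ a : ℤ × ℤ,
        ‖(q : ℝ) • x - ((a.1 : ℝ), (a.2 : ℝ)) - y‖ < ψ q}.Infinite := by
  -- truncate
  have hkey : ∀ M : ℕ, volume ((Ico (0 : ℝ) 1 ×ˢ Ico (0 : ℝ) 1) \
      ⋃ q ∈ {q : ℕ | 1 ≤ q}, E y q (if M ≤ q then min (ψ q) (1 / 2) else 0)) = 0 := by
    intro M
    apply one_hit
    · intro q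
      split_ifs
      · exact le_min (h0 q) (by norm_num)
      · exact le_rfl
    · intro q
      split_ifs
      · exact min_le_right _ _
      · norm_num
    · intro hsum
      apply hdiv
      have h1 : Summable (fun q : ℕ => (min (ψ q) (1 / 2)) ^ 2) := by
        rw [← summable_nat_add_iff M] at hsum ⊢
        refine hsum.congr fun q => ?_
        rw [if_pos (by omega)]
      have h2 : Filter.Tendsto (fun q : ℕ => (min (ψ q) (1 / 2)) ^ 2) Filter.atTop (nhds 0) :=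
        h1.tendsto_atTop_zero
      have h3 : ∀ᶠ q : ℕ in Filter.atTop, (min (ψ q) (1 / 2)) ^ 2 < 1 / 4 :=
        h2.eventually (gt_mem_nhds (by norm_num))
      refine h1.congr_atTop ?_
      filter_upwards [h3] with q hq
      have : ψ q ≤ 1 / 2 := by
        by_contra hcon
        push Not at hcon
        rw [min_eq_right hcon.le] at hq
        norm_num at hq
      rw [min_eq_left this]
  have hall : volume (⋃ M : ℕ, ((Ico (0 : ℝ) 1 ×ˢ Ico (0 : ℝ) 1) \
      ⋃ q ∈ {q : ℕ | 1 ≤ q}, E y q (if M ≤ q then min (ψ q) (1 / 2) else 0))) = 0 :=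
    measure_iUnion_null hkey
  have hbd : volume (Icc (0 : ℝ × ℝ) 1 \ (Ico (0 : ℝ) 1 ×ˢ Ico (0 : ℝ) 1)) = 0 := by
    have hsub : Icc (0 : ℝ × ℝ) 1 \ (Ico (0 : ℝ) 1 ×ˢ Ico (0 : ℝ) 1) ⊆
        (({1} : Set ℝ) ×ˢ (univ : Set ℝ)) ∪ ((univ : Set ℝ) ×ˢ ({1} : Set ℝ)) := by
      rintro ⟨a, b⟩ ⟨⟨h1, h2⟩, h3⟩
      simp only [Prod.le_def, Prod.fst_zero, Prod.snd_zero, Prod.fst_one, Prod.snd_one] at h1 h2
      by_cases ha : a = 1
      · left; exact ⟨ha, trivial⟩
      · by_cases hb : b = 1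
        · right; exact ⟨trivial, hb⟩
        · exfalso
          apply h3
          exact ⟨⟨h1.1, lt_of_le_of_ne h2.1 ha⟩, ⟨h1.2, lt_of_le_of_ne h2.2 hb⟩⟩
    refine measure_mono_null hsub ?_
    rw [measure_union_null_iff]
    constructor
    · rw [Measure.volume_eq_prod, Measure.prod_prod]; simp
    · rw [Measure.volume_eq_prod, Measure.prod_prod]; simp
  rw [ae_restrict_iff' measurableSet_Icc]
  rw [ae_iff]
  refine measure_mono_null ?_ (measure_union_null hall hbd)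
  intro x hx
  simp only [mem_ofPred_eq, Classical.not_imp] at hx
  obtain ⟨hxI, hxinf⟩ := hx
  by_cases hxs : x ∈ Ico (0 : ℝ) 1 ×ˢ Ico (0 : ℝ) 1
  · left
    rw [Set.not_infinite] at hxinf
    obtain ⟨M, hM⟩ := hxinf.bddAbove
    rw [mem_iUnion]
    refine ⟨M + 1, hxs, fun hx2 => ?_⟩
    simp only [mem_iUnion] at hx2
    obtain ⟨q, hq1, ⟨a, ha⟩, ⟨b, hb⟩⟩ := hx2
    split_ifs at ha hb with hMq
    · have hmem : q ∈ {q : ℕ | 0 < q ∧ ∃ a : ℤ × ℤ,
          ‖(q : ℝ) • x - ((a.1 : ℝ), (a.2 : ℝ)) - y‖ < ψ q} := by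
        refine ⟨hq1, (a, b), ?_⟩
        rw [Prod.norm_def, max_lt_iff]
        constructor
        · simp only [Prod.fst_sub, Prod.smul_fst, smul_eq_mul, Real.norm_eq_abs]
          exact lt_of_lt_of_le ha (min_le_left _ _)
        · simp only [Prod.snd_sub, Prod.smul_snd, smul_eq_mul, Real.norm_eq_abs]
          exact lt_of_lt_of_le hb (min_le_left _ _)
      have := hM hmem
      omega
    · exact absurd ha (not_lt.2 (abs_nonneg _))
  · right
    exact ⟨hxI, hxs⟩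

end Pool.Agent.W8.K2
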