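import Mathlib

set_option autoImplicit false

open MeasureTheory Set

namespace Pool.Agent.W8.K2

/-- `A q y t = {x : ‖q x - y‖ < t}`. -/
def A (q : ℕ) (y t : ℝ) : Set ℝ := {x | ∃ a : ℤ, |(q : ℝ) * x - a - y| < t}

theorem isOpen_A (q : ℕ) (y t : ℝ) : IsOpen (A q y t) := by
  have : A q y t = ⋃ a : ℤ, {x | |(q : ℝ) * x - a - y| < t} := by
    ext x; simp [A]
  rw [this]
  exact isOpen_iUnion fun a => isOpen_lt (by fun_prop) continuous_const

theorem card_int_Icc_le (a b : ℝ) (h : a ≤ b) : ((Finset.Icc ⌈a⌉ ⌊b⌋).card : ℝ) ≤ b - a + 1 := by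
  rw [Int.card_Icc]
  have h1 : ((⌊b⌋ + 1 - ⌈a⌉).toNat : ℤ) ≤ max (⌊b⌋ + 1 - ⌈a⌉) 0 := by
    rw [Int.toNat_eq_max]
  have h2 : (((⌊b⌋ + 1 - ⌈a⌉).toNat : ℤ) : ℝ) ≤ ((max (⌊b⌋ + 1 - ⌈a⌉) 0 : ℤ) : ℝ) := by
    exact_mod_cast h1
  have h3 : (((⌊b⌋ + 1 - ⌈a⌉).toNat : ℤ) : ℝ) = ((⌊b⌋ + 1 - ⌈a⌉).toNat : ℝ) := by norm_cast
  rw [← h3]
  refine h2.trans ?_
  push_cast
  apply max_le
  · have := Int.floor_le b
    have := Int.le_ceil a
    linarith
  · linarith

theorem up1 {q : ℕ} (hq : 1 ≤ q) {y t : ℝ} (ht0 : 0 ≤ t) (ht : t ≤ 1 / 2) :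
    volume (A q y t ∩ Icc 0 1) ≤ ENNReal.ofReal (6 * t) := by
  have hq0 : (0 : ℝ) < q := by exact_mod_cast hq
  have hq1 : (1 : ℝ) ≤ q := by exact_mod_cast hq
  have hsub : A q y t ∩ Icc 0 1 ⊆ ⋃ a ∈ Finset.Icc ⌈-y - t⌉ ⌊q - y + t⌋,
      Ioo (((a : ℝ) + y - t) / q) (((a : ℝ) + y + t) / q) := by
    rintro x ⟨⟨a, ha⟩, hx0, hx1⟩
    rw [abs_lt] at ha
    have h1 : 0 ≤ (q : ℝ) * x := by positivity
    have h2 : (q : ℝ) * x ≤ q := by nlinarith
    simp only [mem_iUnion, Finset.mem_Icc]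
    refine ⟨a, ⟨Int.ceil_le.2 (by linarith), Int.le_floor.2 (by linarith)⟩, ?_, ?_⟩
    · rw [div_lt_iff₀ hq0]; linarith
    · rw [lt_div_iff₀ hq0]; linarith
  calc volume (A q y t ∩ Icc 0 1) ≤ volume (⋃ a ∈ Finset.Icc ⌈-y - t⌉ ⌊q - y + t⌋,
      Ioo (((a : ℝ) + y - t) / q) (((a : ℝ) + y + t) / q)) := measure_mono hsub
    _ ≤ ∑ a ∈ Finset.Icc ⌈-y - t⌉ ⌊q - y + t⌋,
          volume (Ioo (((a : ℝ) + y - t) / q) (((a : ℝ) + y + t) / q)) :=
        measure_biUnion_finset_le _ _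
    _ = ∑ a ∈ Finset.Icc ⌈-y - t⌉ ⌊q - y + t⌋, ENNReal.ofReal (2 * t / q) := by
        apply Finset.sum_congr rfl
        intro a _
        rw [Real.volume_Ioo]
        congr 1
        field_simp
        ring
    _ = ENNReal.ofReal ((Finset.Icc ⌈-y - t⌉ ⌊q - y + t⌋).card * (2 * t / q)) := by
        rw [Finset.sum_const, nsmul_eq_mul, ← ENNReal.ofReal_natCast,
          ← ENNReal.ofReal_mul (by positivity)]
    _ ≤ ENNReal.ofReal (6 * t) := by
        apply ENNReal.ofReal_le_ofReal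
        have h := card_int_Icc_le (-y - t) (q - y + t) (by linarith)
        have h2 : ((Finset.Icc ⌈-y - t⌉ ⌊q - y + t⌋).card : ℝ) ≤ 3 * q := by linarith
        calc _ ≤ (3 * q) * (2 * t / q) := mul_le_mul_of_nonneg_right h2 (by positivity)
          _ = 6 * t := by field_simp; ring

theorem low1 {q : ℕ} (hq : 1 ≤ q) {y t α β : ℝ} (ht0 : 0 ≤ t) (ht : t ≤ 1 / 2) :
    ENNReal.ofReal (2 * t * (β - α - 2 / q)) ≤ volume (A q y t ∩ Ico α β) := by
  have hq0 : (0 : ℝ) < q := by exact_mod_cast hq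
  by_cases hle : β - α - 2 / q ≤ 0
  · have : 2 * t * (β - α - 2 / q) ≤ 0 := mul_nonpos_of_nonneg_of_nonpos (by positivity) hle
    rw [ENNReal.ofReal_of_nonpos this]
    exact zero_le
  push Not at hle
  have hq2 : 2 / (q : ℝ) * q = 2 := by field_simp
  have hbig : 2 < q * (β - α) := by
    have := mul_pos hle hq0
    nlinarith
  set I := Finset.Icc ⌈q * α - y + t⌉ ⌊q * β - y - t⌋ with hI
  have hsub : (⋃ a ∈ I, Ioo (((a : ℝ) + y - t) / q) (((a : ℝ) + y + t) / q)) ⊆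
      A q y t ∩ Ico α β := by
    intro x hx
    simp only [mem_iUnion, Finset.mem_Icc, hI] at hx
    obtain ⟨a, ⟨h1, h2⟩, h3, h4⟩ := hx
    rw [div_lt_iff₀ hq0] at h3
    rw [lt_div_iff₀ hq0] at h4
    rw [Int.ceil_le] at h1
    rw [Int.le_floor] at h2
    refine ⟨⟨a, abs_lt.2 ⟨by linarith, by linarith⟩⟩, ?_, ?_⟩
    · have : q * α ≤ q * x := by linarith
      exact le_of_mul_le_mul_left this hq0
    · have : q * x < q * β := by linarith
      exact lt_of_mul_lt_mul_left this hq0.le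
  refine le_trans ?_ (measure_mono hsub)
  rw [measure_biUnion_finset]
  · have e : ∀ a ∈ I, volume (Ioo (((a : ℝ) + y - t) / q) (((a : ℝ) + y + t) / q)) =
        ENNReal.ofReal (2 * t / q) := by
      intro a _
      rw [Real.volume_Ioo]
      congr 1
      field_simp
      ring
    rw [Finset.sum_congr rfl e, Finset.sum_const, nsmul_eq_mul, ← ENNReal.ofReal_natCast,
      ← ENNReal.ofReal_mul (by positivity)]
    apply ENNReal.ofReal_le_ofReal
    have hcard : q * (β - α) - 2 ≤ (I.card : ℝ) := by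
      rw [hI, Int.card_Icc]
      have h3 : (((⌊q * β - y - t⌋ + 1 - ⌈q * α - y + t⌉).toNat : ℤ) : ℝ) =
        ((⌊q * β - y - t⌋ + 1 - ⌈q * α - y + t⌉).toNat : ℝ) := by norm_cast
      rw [← h3]
      have h4 : (⌊q * β - y - t⌋ + 1 - ⌈q * α - y + t⌉) ≤
          ((⌊q * β - y - t⌋ + 1 - ⌈q * α - y + t⌉).toNat : ℤ) := Int.self_le_toNat _
      have h5 : (((⌊q * β - y - t⌋ + 1 - ⌈q * α - y + t⌉ : ℤ)) : ℝ) ≤
          (((⌊q * β - y - t⌋ + 1 - ⌈q * α - y + t⌉).toNat : ℤ) : ℝ) := by exact_mod_cast h4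
      refine le_trans ?_ h5
      push_cast
      have := Int.lt_floor_add_one (q * β - y - t)
      have := Int.ceil_lt_add_one (q * α - y + t)
      nlinarith
    calc 2 * t * (β - α - 2 / q) = (q * (β - α) - 2) * (2 * t / q) := by
          field_simp
      _ ≤ I.card * (2 * t / q) := mul_le_mul_of_nonneg_right hcard (by positivity)
  · intro a _ b _ hab
    rw [Function.onFun, Set.disjoint_left]
    rintro x ⟨h1, h2⟩ ⟨h3, h4⟩
    rw [div_lt_iff₀ hq0] at h1 h3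
    rw [lt_div_iff₀ hq0] at h2 h4
    apply hab
    have h5 : ((a : ℝ) - b) < 1 := by linarith
    have h6 : ((b : ℝ) - a) < 1 := by linarith
    have h7 : a - b < 1 := by exact_mod_cast h5
    have h8 : b - a < 1 := by exact_mod_cast h6
    omega
  · intro a _
    exact measurableSet_Ioo

theorem zk {d u v : ℕ} (hd : 1 ≤ d) (hu : 1 ≤ u) (hv : 1 ≤ v) (huv : Nat.Coprime u v)
    {y s t : ℝ} (hs0 : 0 < s) (hs : s ≤ 1 / 2) (ht0 : 0 < t) (k : ℤ) :
    volume {x : ℝ | x ∈ Icc (0 : ℝ) 1 ∧ ∃ a b : ℤ, |((d * u : ℕ) : ℝ) * x - a - y| < s ∧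
      |((d * v : ℕ) : ℝ) * x - b - y| < t ∧ (u : ℤ) * b - v * a = k} ≤
    ENNReal.ofReal (12 * min (s / u) (t / v)) := by
  have hd0 : (0 : ℝ) < d := by exact_mod_cast hd
  have hd1 : (1 : ℝ) ≤ d := by exact_mod_cast hd
  have hu0 : (0 : ℝ) < u := by exact_mod_cast hu
  have hu1 : (1 : ℝ) ≤ u := by exact_mod_cast hu
  have hv0 : (0 : ℝ) < v := by exact_mod_cast hv
  set m := min (s / u) (t / v) with hm
  have hm0 : 0 < m := lt_min (by positivity) (by positivity)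
  have hms : m ≤ s / u := min_le_left _ _
  have hmt : m ≤ t / v := min_le_right _ _
  have hmhalf : m ≤ 1 / 2 := by
    refine hms.trans ?_
    rw [div_le_iff₀ hu0]
    nlinarith
  rcases Set.eq_empty_or_nonempty {x : ℝ | x ∈ Icc (0 : ℝ) 1 ∧ ∃ a b : ℤ,
      |((d * u : ℕ) : ℝ) * x - a - y| < s ∧
      |((d * v : ℕ) : ℝ) * x - b - y| < t ∧ (u : ℤ) * b - v * a = k} with h0 | ⟨x0, hx0⟩
  · rw [h0]; simp
  obtain ⟨⟨hx00, hx01⟩, a0, b0, ha0, hb0, hk0⟩ := hx0
  set ρ : ℝ := 2 * m / d with hρ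
  have hρ0 : 0 < ρ := by positivity
  have hsub : {x : ℝ | x ∈ Icc (0 : ℝ) 1 ∧ ∃ a b : ℤ,
      |((d * u : ℕ) : ℝ) * x - a - y| < s ∧
      |((d * v : ℕ) : ℝ) * x - b - y| < t ∧ (u : ℤ) * b - v * a = k} ⊆
      ⋃ j ∈ Finset.Icc (-(d : ℤ)) d, Ioo (x0 + (j : ℝ) / d - ρ) (x0 + (j : ℝ) / d + ρ) := by
    rintro x ⟨⟨hx0', hx1'⟩, a, b, ha, hb, hk⟩
    have hcop : IsCoprime (u : ℤ) (v : ℤ) := Nat.isCoprime_iff_coprime.2 huv
    have e1 : (u : ℤ) * (b - b0) = v * (a - a0) := by linarith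
    have hdvd : (u : ℤ) ∣ (a - a0) := by
      have : (u : ℤ) ∣ v * (a - a0) := ⟨_, e1.symm⟩
      exact hcop.dvd_of_dvd_mul_left this
    obtain ⟨j, hj⟩ := hdvd
    have hj2 : b - b0 = v * j := by
      have hu' : (u : ℤ) ≠ 0 := by exact_mod_cast (by omega : u ≠ 0)
      apply mul_left_cancel₀ hu'
      rw [e1, hj]; ring
    have hjR : (a : ℝ) - a0 = u * j := by exact_mod_cast hj
    have hj2R : (b : ℝ) - b0 = v * j := by exact_mod_cast hj2
    have c1 : |x - x0 - j / d| < 2 * (s / u) / d := by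
      have e : x - x0 - j / d = ((((d * u : ℕ) : ℝ) * x - a - y) -
          (((d * u : ℕ) : ℝ) * x0 - a0 - y)) / (d * u) := by
        have : (((d * u : ℕ) : ℝ) * x - a - y) -
          (((d * u : ℕ) : ℝ) * x0 - a0 - y) = (d * u) * (x - x0) - (a - a0) := by
            push_cast; ring
        rw [this, hjR]
        field_simp
      rw [e, abs_div, abs_of_pos (by positivity : (0 : ℝ) < d * u), div_lt_iff₀ (by positivity)]
      calc _ ≤ |(((d * u : ℕ) : ℝ) * x - a - y)| + |(((d * u : ℕ) : ℝ) * x0 - a0 - y)| :=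
            abs_sub _ _
        _ < s + s := add_lt_add ha ha0
        _ = 2 * (s / u) / d * (d * u) := by field_simp; ring
    have c2 : |x - x0 - j / d| < 2 * (t / v) / d := by
      have e : x - x0 - j / d = ((((d * v : ℕ) : ℝ) * x - b - y) -
          (((d * v : ℕ) : ℝ) * x0 - b0 - y)) / (d * v) := by
        have : (((d * v : ℕ) : ℝ) * x - b - y) -
          (((d * v : ℕ) : ℝ) * x0 - b0 - y) = (d * v) * (x - x0) - (b - b0) := by
            push_cast; ring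
        rw [this, hj2R]
        field_simp
      rw [e, abs_div, abs_of_pos (by positivity : (0 : ℝ) < d * v), div_lt_iff₀ (by positivity)]
      calc _ ≤ |(((d * v : ℕ) : ℝ) * x - b - y)| + |(((d * v : ℕ) : ℝ) * x0 - b0 - y)| :=
            abs_sub _ _
        _ < t + t := add_lt_add hb hb0
        _ = 2 * (t / v) / d * (d * v) := by field_simp; ring
    have c3 : |x - x0 - j / d| < ρ := by
      rw [hρ, hm]
      rcases min_choice (s / (u : ℝ)) (t / v) with h | h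
      · rw [h]; exact c1
      · rw [h]; exact c2
    have c4 : |(j : ℝ)| < d + 1 := by
      have h1 : |x - x0| ≤ 1 := by rw [abs_le]; constructor <;> linarith
      have h2 : |(j : ℝ) / d| < 1 + ρ := by
        have : (j : ℝ) / d = (x - x0) - (x - x0 - j / d) := by ring
        rw [this]
        calc _ ≤ |x - x0| + |x - x0 - j / d| := abs_sub _ _
          _ < 1 + ρ := by linarith
      rw [abs_div, abs_of_pos hd0, div_lt_iff₀ hd0] at h2
      have h3 : ρ * d ≤ 1 := by rw [hρ]; field_simp; linarith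
      nlinarith
    have c5 : |j| ≤ d := by
      have : |j| < d + 1 := by exact_mod_cast c4
      omega
    simp only [mem_iUnion, Finset.mem_Icc]
    rw [abs_le] at c5
    rw [abs_lt] at c3
    exact ⟨j, c5, by linarith, by linarith⟩
  calc _ ≤ volume (⋃ j ∈ Finset.Icc (-(d : ℤ)) d,
        Ioo (x0 + (j : ℝ) / d - ρ) (x0 + (j : ℝ) / d + ρ)) := measure_mono hsub
    _ ≤ ∑ j ∈ Finset.Icc (-(d : ℤ)) d,
        volume (Ioo (x0 + (j : ℝ) / d - ρ) (x0 + (j : ℝ) / d + ρ)) :=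
        measure_biUnion_finset_le _ _
    _ = ∑ j ∈ Finset.Icc (-(d : ℤ)) d, ENNReal.ofReal (2 * ρ) := by
        apply Finset.sum_congr rfl
        intro j _
        rw [Real.volume_Ioo]
        congr 1
        ring
    _ = ENNReal.ofReal ((2 * d + 1 : ℕ) * (2 * ρ)) := by
        rw [Finset.sum_const, nsmul_eq_mul, ← ENNReal.ofReal_natCast,
          ← ENNReal.ofReal_mul (by positivity)]
        congr 3
        rw [Int.card_Icc]
        omega
    _ ≤ ENNReal.ofReal (12 * m) := by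
        apply ENNReal.ofReal_le_ofReal
        have : (((2 * d + 1 : ℕ)) : ℝ) ≤ 3 * d := by push_cast; linarith
        calc _ ≤ (3 * d) * (2 * ρ) := mul_le_mul_of_nonneg_right this (by positivity)
          _ = 12 * m := by rw [hρ]; field_simp; ring

theorem overlap1 {d u v : ℕ} (hd : 1 ≤ d) (hu : 1 ≤ u) (hv : 1 ≤ v) (huv : Nat.Coprime u v)
    {y s t : ℝ} (hs0 : 0 < s) (hs : s ≤ 1 / 2) (ht0 : 0 < t) :
    volume (A (d * u) y s ∩ A (d * v) y t ∩ Icc 0 1) ≤
      ENNReal.ofReal (48 * s * t + 12 * min (s / u) (t / v)) := by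
  have hu0 : (0 : ℝ) < u := by exact_mod_cast hu
  have hv0 : (0 : ℝ) < v := by exact_mod_cast hv
  set m := min (s / u) (t / v) with hm
  have hm0 : 0 < m := lt_min (by positivity) (by positivity)
  have hms : m ≤ s / u := min_le_left _ _
  have hmt : m ≤ t / v := min_le_right _ _
  set W : ℝ := v * s + u * t with hW
  have hW0 : 0 < W := by positivity
  set c : ℝ := (v - u) * y with hc
  have hsub : A (d * u) y s ∩ A (d * v) y t ∩ Icc 0 1 ⊆
      ⋃ k ∈ Finset.Icc ⌈c - W⌉ ⌊c + W⌋, {x : ℝ | x ∈ Icc (0 : ℝ) 1 ∧ ∃ a b : ℤ,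
      |((d * u : ℕ) : ℝ) * x - a - y| < s ∧
      |((d * v : ℕ) : ℝ) * x - b - y| < t ∧ (u : ℤ) * b - v * a = k} := by
    rintro x ⟨⟨⟨a, ha⟩, ⟨b, hb⟩⟩, hx⟩
    simp only [mem_iUnion, Finset.mem_Icc]
    refine ⟨(u : ℤ) * b - v * a, ?_, hx, a, b, ha, hb, rfl⟩
    have e : (((u : ℤ) * b - v * a : ℤ) : ℝ) - c = v * (((d * u : ℕ) : ℝ) * x - a - y) -
        u * (((d * v : ℕ) : ℝ) * x - b - y) := by
      rw [hc]; push_cast; ring
    have e2 : |(((u : ℤ) * b - v * a : ℤ) : ℝ) - c| ≤ W := by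
      rw [e]
      calc _ ≤ |v * (((d * u : ℕ) : ℝ) * x - a - y)| + |u * (((d * v : ℕ) : ℝ) * x - b - y)| :=
            abs_sub _ _
        _ ≤ v * s + u * t := by
            rw [abs_mul, abs_mul, Nat.abs_cast, Nat.abs_cast]
            exact add_le_add (mul_le_mul_of_nonneg_left ha.le hv0.le)
              (mul_le_mul_of_nonneg_left hb.le hu0.le)
    rw [abs_le] at e2
    exact ⟨Int.ceil_le.2 (by linarith), Int.le_floor.2 (by linarith)⟩
  calc _ ≤ _ := measure_mono hsub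
    _ ≤ ∑ k ∈ Finset.Icc ⌈c - W⌉ ⌊c + W⌋, volume {x : ℝ | x ∈ Icc (0 : ℝ) 1 ∧ ∃ a b : ℤ,
      |((d * u : ℕ) : ℝ) * x - a - y| < s ∧
      |((d * v : ℕ) : ℝ) * x - b - y| < t ∧ (u : ℤ) * b - v * a = k} :=
        measure_biUnion_finset_le _ _
    _ ≤ ∑ k ∈ Finset.Icc ⌈c - W⌉ ⌊c + W⌋, ENNReal.ofReal (12 * m) :=
        Finset.sum_le_sum fun k _ => zk hd hu hv huv hs0 hs ht0 k
    _ = ENNReal.ofReal ((Finset.Icc ⌈c - W⌉ ⌊c + W⌋).card * (12 * m)) := by
        rw [Finset.sum_const, nsmul_eq_mul, ← ENNReal.ofReal_natCast,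
          ← ENNReal.ofReal_mul (by positivity)]
    _ ≤ ENNReal.ofReal (48 * s * t + 12 * m) := by
        apply ENNReal.ofReal_le_ofReal
        have h := card_int_Icc_le (c - W) (c + W) (by linarith)
        have h2 : m * W ≤ 2 * s * t := by
          rw [hW]
          have h3 : m * (v * s) ≤ (t / v) * (v * s) :=
            mul_le_mul_of_nonneg_right hmt (by positivity)
          have h4 : m * (u * t) ≤ (s / u) * (u * t) :=
            mul_le_mul_of_nonneg_right hms (by positivity)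
          have h5 : (t / v) * (v * s) = s * t := by field_simp
          have h6 : (s / u) * (u * t) = s * t := by field_simp
          nlinarith
        calc _ ≤ (2 * W + 1) * (12 * m) := by
              apply mul_le_mul_of_nonneg_right (by linarith) (by positivity)
          _ = 24 * (m * W) + 12 * m := by ring
          _ ≤ 48 * s * t + 12 * m := by nlinarith

end Pool.Agent.W8.K2
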