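import Pool.Agent.W8.K2.Sets

set_option autoImplicit false

open MeasureTheory Set

namespace Pool.Agent.W8.K2

theorem overlap2 {y : ℝ × ℝ} {X d u v : ℕ} (hd : 1 ≤ d) (hu : 1 ≤ u) (hv : 1 ≤ v)
    (huv : Nat.Coprime u v) {s t : ℝ} (hs0 : 0 < s) (hs : s ≤ 1 / 2) (ht0 : 0 < t) :
    volume (EG y X (d * u) s ∩ EG y X (d * v) t ∩ Sq) ≤
      ENNReal.ofReal ((48 * s * t + 12 * min (s / u) (t / v)) ^ 2) := by
  have hu0 : (0 : ℝ) < u := by exact_mod_cast hu
  have hv0 : (0 : ℝ) < v := by exact_mod_cast hv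
  have hm0 : 0 < min (s / u) (t / v) := lt_min (by positivity) (by positivity)
  have hsub : EG y X (d * u) s ∩ EG y X (d * v) t ∩ Sq ⊆
      (A (d * u) y.1 s ∩ A (d * v) y.1 t ∩ Icc 0 1) ×ˢ
      (A (d * u) y.2 s ∩ A (d * v) y.2 t ∩ Icc 0 1) := by
    rintro x ⟨⟨h1, h2⟩, hx1, hx2⟩
    have h1' := EG_subset_E _ _ _ _ h1
    have h2' := EG_subset_E _ _ _ _ h2
    exact ⟨⟨⟨h1'.1, h2'.1⟩, hx1⟩, ⟨⟨h1'.2, h2'.2⟩, hx2⟩⟩
  refine (measure_mono hsub).trans ?_
  rw [Measure.volume_eq_prod, Measure.prod_prod]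
  refine (mul_le_mul' (overlap1 hd hu hv huv hs0 hs ht0)
    (overlap1 hd hu hv huv hs0 hs ht0)).trans ?_
  rw [← ENNReal.ofReal_mul (by positivity), sq]

/-- measure of the overlap -/
noncomputable def pp (y : ℝ × ℝ) (X q : ℕ) (s : ℝ) (r : ℕ) (t : ℝ) : ℝ :=
  volume.real (EG y X q s ∩ EG y X r t ∩ Sq)

theorem pp_nonneg (y : ℝ × ℝ) (X q : ℕ) (s : ℝ) (r : ℕ) (t : ℝ) : 0 ≤ pp y X q s r t :=
  measureReal_nonneg

theorem pp_comm (y : ℝ × ℝ) (X q : ℕ) (s : ℝ) (r : ℕ) (t : ℝ) :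
    pp y X q s r t = pp y X r t q s := by
  rw [pp, pp, inter_comm (EG y X q s)]

open Classical in
/-- weight of a bad pair -/
noncomputable def w (y : ℝ × ℝ) (t : ℝ) (u v : ℕ) : ℝ :=
  if Bad y t (u, v) then 1 / (u : ℝ) ^ 2 else 0

theorem w_nonneg (y : ℝ × ℝ) (t : ℝ) (u v : ℕ) : 0 ≤ w y t u v := by
  unfold w
  split_ifs <;> positivity

theorem pair_aux {y : ℝ × ℝ} {X d u v : ℕ} (hd : 1 ≤ d) (hv : 1 ≤ v) (hvu : v < u)
    (huv : Nat.Coprime u v) {s t : ℝ} (hs0 : 0 < s) (hs : s ≤ 1 / 2) (ht0 : 0 < t) :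
    pp y X (d * u) s (d * v) t ≤ 20736 * s ^ 2 * t ^ 2 + 288 * s ^ 2 * (if u < X then 1 else 0) +
      288 * s ^ 2 * w y s u v + 288 * t ^ 2 * w y t u v := by
  have hu : 1 ≤ u := by omega
  have hu0 : (0 : ℝ) < u := by exact_mod_cast hu
  have hu1 : (1 : ℝ) ≤ u := by exact_mod_cast hu
  have hv0 : (0 : ℝ) < v := by exact_mod_cast hv
  have hvu' : (v : ℝ) < u := by exact_mod_cast hvu
  have hws := w_nonneg y s u v
  have hwt := w_nonneg y t u v
  have hIte : (0 : ℝ) ≤ (if u < X then 1 else 0) := by split_ifs <;> norm_num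
  have hr1 : 0 ≤ 288 * s ^ 2 * (if u < X then (1 : ℝ) else 0) := by positivity
  have hr2 : 0 ≤ 288 * s ^ 2 * w y s u v := by positivity
  have hr3 : 0 ≤ 288 * t ^ 2 * w y t u v := by positivity
  set m := min (s / u) (t / v) with hm
  have hm0 : 0 < m := lt_min (by positivity) (by positivity)
  have hms : m ≤ s / u := min_le_left _ _
  have hmt : m ≤ t / v := min_le_right _ _
  have hpp : pp y X (d * u) s (d * v) t ≤ (48 * s * t + 12 * m) ^ 2 := by
    rw [pp, Measure.real]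
    refine ENNReal.toReal_le_of_le_ofReal (by positivity) ?_
    exact overlap2 hd hu hv huv hs0 hs ht0
  by_cases hD : (v : ℝ) * s < 1 / 8 ∧ (u : ℝ) * t < 1 / 8
  · obtain ⟨hD1, hD2⟩ := hD
    rcases Set.eq_empty_or_nonempty (EG y X (d * u) s ∩ EG y X (d * v) t ∩ Sq) with h0 | ⟨x, hx⟩
    · have : pp y X (d * u) s (d * v) t = 0 := by
        rw [pp, h0]; simp
      rw [this]
      positivity
    have h1 : pp y X (d * u) s (d * v) t ≤ 4608 * (s ^ 2 * t ^ 2) + 288 * m ^ 2 := by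
      have e : (48 * s * t + 12 * m) ^ 2 = 4608 * (s ^ 2 * t ^ 2) + 288 * m ^ 2 -
        (48 * s * t - 12 * m) ^ 2 := by ring
      have := sq_nonneg (48 * s * t - 12 * m)
      linarith
    have hm2 : m ^ 2 ≤ s ^ 2 * (1 / (u : ℝ) ^ 2) := by
      calc m ^ 2 ≤ (s / u) ^ 2 := pow_le_pow_left₀ hm0.le hms 2
        _ = s ^ 2 * (1 / (u : ℝ) ^ 2) := by field_simp
    have hst : 0 ≤ s ^ 2 * t ^ 2 := by positivity
    by_cases hXu : u < X
    · have h2 : s ^ 2 * (1 / (u : ℝ) ^ 2) ≤ s ^ 2 := by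
        have h3 : 1 / (u : ℝ) ^ 2 ≤ 1 := by
          rw [div_le_one (by positivity)]
          exact one_le_pow₀ hu1
        calc s ^ 2 * (1 / (u : ℝ) ^ 2) ≤ s ^ 2 * 1 :=
              mul_le_mul_of_nonneg_left h3 (sq_nonneg s)
          _ = s ^ 2 := mul_one _
      rw [if_pos hXu]
      have e20 : 20736 * s ^ 2 * t ^ 2 = 20736 * (s ^ 2 * t ^ 2) := by ring
      rw [e20]
      linarith
    · push Not at hXu
      have hlink := link hu hvu huv hXu hx.1.1 (EG_subset_E _ _ _ _ hx.1.2)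
      rcases le_total t s with hts | hts
      · have hbad : Bad y s (u, v) := by
          refine ⟨hv, hvu, hD1, fun _ => ?_⟩
          apply T_mono y u _ hlink
          simp only
          nlinarith
        have hw : w y s u v = 1 / (u : ℝ) ^ 2 := by rw [w, if_pos hbad]
        rw [hw] at hr2 ⊢
        have e20 : 20736 * s ^ 2 * t ^ 2 = 20736 * (s ^ 2 * t ^ 2) := by ring
        have e21 : 288 * s ^ 2 * (1 / (u : ℝ) ^ 2) = 288 * (s ^ 2 * (1 / (u : ℝ) ^ 2)) := by ring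
        rw [e20, e21]
        linarith
      · have hbad : Bad y t (u, v) := by
          refine ⟨hv, hvu, ?_, fun _ => ?_⟩
          · simp only
            nlinarith
          · apply T_mono y u _ hlink
            simp only
            nlinarith
        have hw : w y t u v = 1 / (u : ℝ) ^ 2 := by rw [w, if_pos hbad]
        rw [hw] at hr3 ⊢
        have h3 : s ^ 2 * (1 / (u : ℝ) ^ 2) ≤ t ^ 2 * (1 / (u : ℝ) ^ 2) := by
          apply mul_le_mul_of_nonneg_right _ (by positivity)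
          exact pow_le_pow_left₀ hs0.le hts 2
        have e20 : 20736 * s ^ 2 * t ^ 2 = 20736 * (s ^ 2 * t ^ 2) := by ring
        have e21 : 288 * t ^ 2 * (1 / (u : ℝ) ^ 2) = 288 * (t ^ 2 * (1 / (u : ℝ) ^ 2)) := by ring
        rw [e20, e21]
        linarith
  · have hm8 : m ≤ 8 * (s * t) := by
      rw [not_and_or, not_lt, not_lt] at hD
      rcases hD with hD | hD
      · refine hmt.trans ?_
        rw [div_le_iff₀ hv0]
        nlinarith
      · refine hms.trans ?_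
        rw [div_le_iff₀ hu0]
        nlinarith
    have h1 : (48 * s * t + 12 * m) ^ 2 ≤ (144 * (s * t)) ^ 2 := by
      apply pow_le_pow_left₀ (by positivity)
      nlinarith
    have h2 : (144 * (s * t)) ^ 2 = 20736 * s ^ 2 * t ^ 2 := by ring
    linarith

theorem pair {y : ℝ × ℝ} {X q r : ℕ} (hr : 1 ≤ r) (hrq : r < q) {s t : ℝ} (hs0 : 0 ≤ s)
    (hs : s ≤ 1 / 2) (ht0 : 0 ≤ t) :
    pp y X q s r t ≤ 20736 * s ^ 2 * t ^ 2 +
      288 * s ^ 2 * (if q / Nat.gcd q r < X then 1 else 0) +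
      288 * s ^ 2 * w y s (q / Nat.gcd q r) (r / Nat.gcd q r) +
      288 * t ^ 2 * w y t (q / Nat.gcd q r) (r / Nat.gcd q r) := by
  have hws := w_nonneg y s (q / Nat.gcd q r) (r / Nat.gcd q r)
  have hwt := w_nonneg y t (q / Nat.gcd q r) (r / Nat.gcd q r)
  have hIte : (0 : ℝ) ≤ (if q / Nat.gcd q r < X then 1 else 0) := by split_ifs <;> norm_num
  have hnn : 0 ≤ 20736 * s ^ 2 * t ^ 2 +
      288 * s ^ 2 * (if q / Nat.gcd q r < X then 1 else 0) +
      288 * s ^ 2 * w y s (q / Nat.gcd q r) (r / Nat.gcd q r) +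
      288 * t ^ 2 * w y t (q / Nat.gcd q r) (r / Nat.gcd q r) := by positivity
  rcases hs0.eq_or_lt with h | hs0
  · have : pp y X q s r t = 0 := by
      rw [pp, ← h, EG_zero]; simp
    rw [this]; exact hnn
  rcases ht0.eq_or_lt with h | ht0
  · have : pp y X q s r t = 0 := by
      rw [pp, ← h, EG_zero]; simp
    rw [this]; exact hnn
  set d := Nat.gcd q r with hd
  have hd0 : 0 < d := Nat.gcd_pos_of_pos_right _ (by omega)
  have hq : d * (q / d) = q := Nat.mul_div_cancel' (Nat.gcd_dvd_left _ _)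
  have hr' : d * (r / d) = r := Nat.mul_div_cancel' (Nat.gcd_dvd_right _ _)
  have hcop : Nat.Coprime (q / d) (r / d) := Nat.coprime_div_gcd_div_gcd hd0
  have hv : 1 ≤ r / d := by
    rcases Nat.eq_zero_or_pos (r / d) with h | h
    · rw [h, Nat.mul_zero] at hr'; omega
    · exact h
  have hvu : r / d < q / d := by
    by_contra hcon
    push Not at hcon
    have := Nat.mul_le_mul_left d hcon
    omega
  have := pair_aux (y := y) (X := X) hd0 hv hvu hcop hs0 hs ht0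
  rw [hq, hr'] at this
  exact this

theorem w_sum {y : ℝ × ℝ} {t : ℝ} (ht : 0 < t) {ι : Type*} (J : Finset ι) (φ : ι → ℕ × ℕ)
    (hφ : Set.InjOn φ J) : ∑ i ∈ J, w y t (φ i).1 (φ i).2 ≤ 9 := by
  classical
  have h1 : ∑ i ∈ J, w y t (φ i).1 (φ i).2 = ∑ p ∈ J.image φ, w y t p.1 p.2 := by
    rw [Finset.sum_image hφ]
  rw [h1]
  have h2 : ∑ p ∈ J.image φ, w y t p.1 p.2 =
      ∑ p ∈ (J.image φ).filter (fun p => Bad y t p), (1 / (p.1 : ℝ) ^ 2) := by
    rw [Finset.sum_filter]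
    rfl
  rw [h2]
  exact theta_le y ht _ fun p hp => (Finset.mem_filter.1 hp).2

theorem gcd_inj_right {q r r' : ℕ} (hq : 1 ≤ q)
    (h1 : q / Nat.gcd q r = q / Nat.gcd q r') (h2 : r / Nat.gcd q r = r' / Nat.gcd q r') :
    r = r' := by
  have hd : 0 < Nat.gcd q r := Nat.gcd_pos_of_pos_left _ (by omega)
  have hd' : 0 < Nat.gcd q r' := Nat.gcd_pos_of_pos_left _ (by omega)
  have e1 : Nat.gcd q r * (q / Nat.gcd q r) = q := Nat.mul_div_cancel' (Nat.gcd_dvd_left _ _)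
  have e1' : Nat.gcd q r' * (q / Nat.gcd q r') = q := Nat.mul_div_cancel' (Nat.gcd_dvd_left _ _)
  have e2 : Nat.gcd q r * (r / Nat.gcd q r) = r := Nat.mul_div_cancel' (Nat.gcd_dvd_right _ _)
  have e2' : Nat.gcd q r' * (r' / Nat.gcd q r') = r' := Nat.mul_div_cancel' (Nat.gcd_dvd_right _ _)
  have hpos : 0 < q / Nat.gcd q r' := by
    rcases Nat.eq_zero_or_pos (q / Nat.gcd q r') with h | h
    · rw [h, Nat.mul_zero] at e1'; omega
    · exact h
  have e3 : Nat.gcd q r = Nat.gcd q r' := by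
    rw [h1] at e1
    exact Nat.eq_of_mul_eq_mul_right hpos (by omega)
  rw [← e2, ← e2', h2, e3]

theorem gcd_inj_left {r q q' : ℕ} (hr : 1 ≤ r)
    (h1 : q / Nat.gcd q r = q' / Nat.gcd q' r) (h2 : r / Nat.gcd q r = r / Nat.gcd q' r) :
    q = q' := by
  rw [Nat.gcd_comm q r, Nat.gcd_comm q' r] at h1 h2
  exact gcd_inj_right hr h2 h1

/-- number of `r < q` with `q / gcd < X` -/
theorem count_small {q X : ℕ} (hq : 1 ≤ q) (J : Finset ℕ) :
    ((J.filter (fun r => 1 ≤ r ∧ r < q ∧ q / Nat.gcd q r < X)).card : ℝ) ≤ (X : ℝ) ^ 2 := by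
  classical
  have h : (J.filter (fun r => 1 ≤ r ∧ r < q ∧ q / Nat.gcd q r < X)).card ≤
      (Finset.range X ×ˢ Finset.range X).card := by
    apply Finset.card_le_card_of_injOn (fun r => (q / Nat.gcd q r, r / Nat.gcd q r))
    · intro r hr
      rw [Finset.mem_coe, Finset.mem_filter] at hr
      rw [Finset.mem_coe, Finset.mem_product, Finset.mem_range, Finset.mem_range]
      refine ⟨hr.2.2.2, ?_⟩
      exact (Nat.div_le_div_right hr.2.2.1.le).trans_lt hr.2.2.2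
    · intro r _ r' _ hrr
      simp only [Prod.mk.injEq] at hrr
      exact gcd_inj_right hq hrr.1 hrr.2
  rw [Finset.card_product, Finset.card_range] at h
  calc _ ≤ ((X * X : ℕ) : ℝ) := by exact_mod_cast h
    _ = (X : ℝ) ^ 2 := by push_cast; ring

end Pool.Agent.W8.K2
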