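import Pool.Agent.W8.K2.Theta
import Pool.Agent.W8.K2.Meas

set_option autoImplicit false

open MeasureTheory Set

namespace Pool.Agent.W8.K2

/-- the two dimensional set `‖q x - y‖ < t` -/
def E (y : ℝ × ℝ) (q : ℕ) (t : ℝ) : Set (ℝ × ℝ) := A q y.1 t ×ˢ A q y.2 t

/-- the removed class modulo `u` -/
def Rem (y : ℝ × ℝ) (u : ℕ) (a : ℤ × ℤ) : Prop :=
  IsCoprime ((P y.1 u).1 : ℤ) (u : ℤ) ∧ IsCoprime ((P y.2 u).1 : ℤ) (u : ℤ) ∧
    (u : ℤ) ∣ (P y.1 u).2 + (P y.1 u).1 * a.1 ∧ (u : ℤ) ∣ (P y.2 u).2 + (P y.2 u).1 * a.2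

/-- the good part of `E y q t` in the unit square -/
def EG (y : ℝ × ℝ) (X : ℕ) (q : ℕ) (t : ℝ) : Set (ℝ × ℝ) :=
  {x | ∃ a : ℤ × ℤ, (∀ u : ℕ, u ∣ q → X ≤ u → ¬ Rem y u a) ∧
    |(q : ℝ) * x.1 - a.1 - y.1| < t ∧ |(q : ℝ) * x.2 - a.2 - y.2| < t}

/-- the removed part -/
def ER (y : ℝ × ℝ) (u : ℕ) (q : ℕ) (t : ℝ) : Set (ℝ × ℝ) :=
  {x | ∃ a : ℤ × ℤ, Rem y u a ∧
    |(q : ℝ) * x.1 - a.1 - y.1| < t ∧ |(q : ℝ) * x.2 - a.2 - y.2| < t}

/-- the unit square -/
def Sq : Set (ℝ × ℝ) := Icc (0 : ℝ) 1 ×ˢ Icc (0 : ℝ) 1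

theorem measurableSet_Sq : MeasurableSet Sq := measurableSet_Icc.prod measurableSet_Icc

theorem volume_Sq : volume Sq = 1 := by
  rw [Sq, Measure.volume_eq_prod, Measure.prod_prod]
  simp

theorem isOpen_E (y : ℝ × ℝ) (q : ℕ) (t : ℝ) : IsOpen (E y q t) :=
  (isOpen_A _ _ _).prod (isOpen_A _ _ _)

theorem isOpen_EG (y : ℝ × ℝ) (X q : ℕ) (t : ℝ) : IsOpen (EG y X q t) := by
  have : EG y X q t = ⋃ a : ℤ × ℤ, ⋃ _ : (∀ u : ℕ, u ∣ q → X ≤ u → ¬ Rem y u a),
    ({x : ℝ × ℝ | |(q : ℝ) * x.1 - a.1 - y.1| < t} ∩ {x : ℝ × ℝ | |(q : ℝ) * x.2 - a.2 - y.2| < t}) := by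
    ext x
    simp only [EG, mem_iUnion, mem_inter_iff, exists_prop]
    rfl
  rw [this]
  refine isOpen_iUnion fun a => isOpen_iUnion fun _ => IsOpen.inter ?_ ?_
  · exact isOpen_lt (by fun_prop) continuous_const
  · exact isOpen_lt (by fun_prop) continuous_const

theorem EG_subset_E (y : ℝ × ℝ) (X q : ℕ) (t : ℝ) : EG y X q t ⊆ E y q t := by
  rintro x ⟨a, -, h1, h2⟩
  exact ⟨⟨a.1, h1⟩, ⟨a.2, h2⟩⟩

theorem EG_zero (y : ℝ × ℝ) (X q : ℕ) : EG y X q 0 = ∅ := by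
  ext x
  simp only [EG, mem_ofPred_eq, mem_empty_iff_false, iff_false, not_exists, not_and]
  intro a _ h
  exact absurd h (not_lt.2 (abs_nonneg _))

theorem E_diff_subset (y : ℝ × ℝ) (X q : ℕ) (hq : q ≠ 0) (t : ℝ) :
    E y q t \ EG y X q t ⊆ ⋃ u ∈ q.divisors.filter (fun u => X ≤ u), ER y u q t := by
  rintro x ⟨⟨⟨a, ha⟩, ⟨b, hb⟩⟩, hx⟩
  by_contra hcon
  apply hx
  refine ⟨(a, b), fun u hu hXu hR => hcon ?_, ha, hb⟩
  simp only [mem_iUnion, Finset.mem_filter, Nat.mem_divisors]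
  exact ⟨u, ⟨⟨hu, hq⟩, hXu⟩, (a, b), hR, ha, hb⟩

theorem class_le {d u : ℕ} (hd : 1 ≤ d) (hu : 1 ≤ u) {g : ℕ} {h : ℤ} (hg : IsCoprime (g : ℤ) u)
    {y t : ℝ} (ht0 : 0 ≤ t) (ht : t ≤ 1 / 2) :
    volume ({x : ℝ | ∃ a : ℤ, (u : ℤ) ∣ h + g * a ∧ |((d * u : ℕ) : ℝ) * x - a - y| < t} ∩
      Icc 0 1) ≤ ENNReal.ofReal (6 * (t / u)) := by
  have hu0 : (0 : ℝ) < u := by exact_mod_cast hu
  have hu1 : (1 : ℝ) ≤ u := by exact_mod_cast hu
  by_cases hex : ∃ a0 : ℤ, (u : ℤ) ∣ h + g * a0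
  · obtain ⟨a0, ha0⟩ := hex
    have hsub : {x : ℝ | ∃ a : ℤ, (u : ℤ) ∣ h + g * a ∧ |((d * u : ℕ) : ℝ) * x - a - y| < t} ⊆
        A d ((a0 + y) / u) (t / u) := by
      rintro x ⟨a, ha, hax⟩
      have h1 : (u : ℤ) ∣ g * (a - a0) := by
        have := dvd_sub ha ha0
        have e : h + g * a - (h + g * a0) = g * (a - a0) := by ring
        rwa [e] at this
      have h2 : (u : ℤ) ∣ a - a0 := hg.symm.dvd_of_dvd_mul_left h1
      obtain ⟨j, hj⟩ := h2
      refine ⟨j, ?_⟩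
      have hjR : (a : ℝ) - a0 = u * j := by exact_mod_cast hj
      have e : (d : ℝ) * x - j - (a0 + y) / u = (((d * u : ℕ) : ℝ) * x - a - y) / u := by
        have : (a : ℝ) = a0 + u * j := by linarith
        rw [this]
        push_cast
        field_simp
        ring
      rw [e, abs_div, abs_of_pos hu0]
      exact div_lt_div_of_pos_right hax hu0
    refine (measure_mono (inter_subset_inter_left _ hsub)).trans ?_
    apply up1 hd (by positivity)
    rw [div_le_iff₀ hu0]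
    nlinarith
  · have : {x : ℝ | ∃ a : ℤ, (u : ℤ) ∣ h + g * a ∧ |((d * u : ℕ) : ℝ) * x - a - y| < t} = ∅ := by
      ext x
      simp only [mem_ofPred_eq, mem_empty_iff_false, iff_false, not_exists, not_and]
      intro a ha
      exact absurd ⟨a, ha⟩ hex
    rw [this]
    simp

theorem ER_le {y : ℝ × ℝ} {d u : ℕ} (hd : 1 ≤ d) (hu : 1 ≤ u) {t : ℝ} (ht0 : 0 ≤ t)
    (ht : t ≤ 1 / 2) :
    volume (ER y u (d * u) t ∩ Sq) ≤ ENNReal.ofReal (36 * t ^ 2 * (1 / (u : ℝ) ^ 2)) := by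
  have hu0 : (0 : ℝ) < u := by exact_mod_cast hu
  by_cases hc : IsCoprime ((P y.1 u).1 : ℤ) (u : ℤ) ∧ IsCoprime ((P y.2 u).1 : ℤ) (u : ℤ)
  · have hsub : ER y u (d * u) t ∩ Sq ⊆
      ({x : ℝ | ∃ a : ℤ, (u : ℤ) ∣ (P y.1 u).2 + (P y.1 u).1 * a ∧
        |((d * u : ℕ) : ℝ) * x - a - y.1| < t} ∩ Icc 0 1) ×ˢ
      ({x : ℝ | ∃ a : ℤ, (u : ℤ) ∣ (P y.2 u).2 + (P y.2 u).1 * a ∧
        |((d * u : ℕ) : ℝ) * x - a - y.2| < t} ∩ Icc 0 1) := by
      rintro x ⟨⟨a, hR, h1, h2⟩, hx1, hx2⟩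
      exact ⟨⟨⟨a.1, hR.2.2.1, h1⟩, hx1⟩, ⟨⟨a.2, hR.2.2.2, h2⟩, hx2⟩⟩
    refine (measure_mono hsub).trans ?_
    rw [Measure.volume_eq_prod, Measure.prod_prod]
    refine (mul_le_mul' (class_le hd hu hc.1 ht0 ht) (class_le hd hu hc.2 ht0 ht)).trans ?_
    rw [← ENNReal.ofReal_mul (by positivity)]
    apply ENNReal.ofReal_le_ofReal
    apply le_of_eq
    field_simp
    ring
  · have : ER y u (d * u) t = ∅ := by
      ext x
      simp only [ER, mem_ofPred_eq, mem_empty_iff_false, iff_false, not_exists, not_and]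
      intro a hR
      exact absurd ⟨hR.1, hR.2.1⟩ hc
    rw [this]
    simp

theorem E_up {y : ℝ × ℝ} {q : ℕ} (hq : 1 ≤ q) {t : ℝ} (ht0 : 0 ≤ t) (ht : t ≤ 1 / 2) :
    volume (E y q t ∩ Sq) ≤ ENNReal.ofReal (36 * t ^ 2) := by
  rw [E, Sq, prod_inter_prod, Measure.volume_eq_prod, Measure.prod_prod]
  refine (mul_le_mul' (up1 hq ht0 ht) (up1 hq ht0 ht)).trans ?_
  rw [← ENNReal.ofReal_mul (by positivity)]
  apply ENNReal.ofReal_le_ofReal
  apply le_of_eq
  ring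

theorem E_diff_le {y : ℝ × ℝ} {X q : ℕ} (hq : 1 ≤ q) (hX : 2 ≤ X) {t : ℝ} (ht0 : 0 ≤ t)
    (ht : t ≤ 1 / 2) :
    volume ((E y q t \ EG y X q t) ∩ Sq) ≤ ENNReal.ofReal (72 * t ^ 2 / X) := by
  have hX0 : (0 : ℝ) < X := by exact_mod_cast (by omega : 0 < X)
  have hX1 : (2 : ℝ) ≤ X := by exact_mod_cast hX
  calc volume ((E y q t \ EG y X q t) ∩ Sq)
      ≤ volume (⋃ u ∈ q.divisors.filter (fun u => X ≤ u), (ER y u q t ∩ Sq)) := by
        apply measure_mono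
        rintro x ⟨h1, h2⟩
        have := E_diff_subset y X q (by omega) t h1
        simp only [mem_iUnion] at this ⊢
        obtain ⟨u, hu, hx⟩ := this
        exact ⟨u, hu, hx, h2⟩
    _ ≤ ∑ u ∈ q.divisors.filter (fun u => X ≤ u), volume (ER y u q t ∩ Sq) :=
        measure_biUnion_finset_le _ _
    _ ≤ ∑ u ∈ q.divisors.filter (fun u => X ≤ u),
          ENNReal.ofReal (36 * t ^ 2 * (1 / (u : ℝ) ^ 2)) := by
        apply Finset.sum_le_sum
        intro u hu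
        rw [Finset.mem_filter, Nat.mem_divisors] at hu
        obtain ⟨⟨⟨d, hd⟩, -⟩, hXu⟩ := hu
        have hd1 : 1 ≤ d := by
          rcases Nat.eq_zero_or_pos d with h | h
          · rw [h] at hd; omega
          · exact h
        have e : q = d * u := by rw [hd, mul_comm]
        rw [e]
        exact ER_le hd1 (by omega) ht0 ht
    _ = ENNReal.ofReal (∑ u ∈ q.divisors.filter (fun u => X ≤ u),
          (36 * t ^ 2 * (1 / (u : ℝ) ^ 2))) := by
        rw [ENNReal.ofReal_sum_of_nonneg]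
        intro u _
        positivity
    _ ≤ ENNReal.ofReal (72 * t ^ 2 / X) := by
        apply ENNReal.ofReal_le_ofReal
        rw [← Finset.mul_sum]
        have h1 : ∑ u ∈ q.divisors.filter (fun u => X ≤ u), (1 / (u : ℝ) ^ 2) ≤ (2 : ℝ) / X := by
          calc ∑ u ∈ q.divisors.filter (fun u => X ≤ u), (1 / (u : ℝ) ^ 2)
              ≤ ∑ u ∈ Finset.Ioc (X - 1) (max q X), (((u : ℝ) ^ 2)⁻¹) := by
                rw [Finset.sum_congr rfl (g := fun u : ℕ => (((u : ℝ) ^ 2)⁻¹))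
                  (fun u _ => one_div _)]
                apply Finset.sum_le_sum_of_subset_of_nonneg
                · intro u hu
                  rw [Finset.mem_filter, Nat.mem_divisors] at hu
                  have := Nat.le_of_dvd (by omega) hu.1.1
                  rw [Finset.mem_Ioc]
                  constructor
                  · omega
                  · exact le_max_of_le_left this
                · intro u _ _
                  positivity
            _ ≤ (((X - 1 : ℕ) : ℝ))⁻¹ - ((max q X : ℕ) : ℝ)⁻¹ :=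
                sum_Ioc_inv_sq_le_sub (by omega) (le_max_of_le_right (by omega))
            _ ≤ (((X - 1 : ℕ) : ℝ))⁻¹ := by
                have : (0 : ℝ) ≤ ((max q X : ℕ) : ℝ)⁻¹ := by positivity
                linarith
            _ ≤ 2 / X := by
                rw [Nat.cast_sub (by omega), Nat.cast_one, inv_le_comm₀ (by linarith) (by positivity),
                  inv_div]
                linarith
        calc 36 * t ^ 2 * ∑ u ∈ q.divisors.filter (fun u => X ≤ u), (1 / (u : ℝ) ^ 2)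
            ≤ 36 * t ^ 2 * (2 / X) := mul_le_mul_of_nonneg_left h1 (by positivity)
          _ = 72 * t ^ 2 / X := by ring

/-- the structural step: a good overlap forces `u - v` to lie in the small set `T` -/
theorem link {y : ℝ × ℝ} {X d u v : ℕ} (hu : 1 ≤ u) (hvu : v < u)
    (huv : Nat.Coprime u v) (hX : X ≤ u) {s t : ℝ}
    {x : ℝ × ℝ} (h1 : x ∈ EG y X (d * u) s) (h2 : x ∈ E y (d * v) t) :
    u - v ∈ T y u (v * s + u * t) := by
  obtain ⟨a, hG, ha1, ha2⟩ := h1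
  obtain ⟨⟨b1, hb1⟩, ⟨b2, hb2⟩⟩ := h2
  have hu0 : (0 : ℝ) < u := by exact_mod_cast hu
  by_contra hnot
  have hcop : IsCoprime ((u - v : ℕ) : ℤ) (u : ℤ) := by
    rw [Nat.cast_sub hvu.le]
    have h3 : IsCoprime (v : ℤ) (u : ℤ) := (Nat.isCoprime_iff_coprime.2 huv).symm
    obtain ⟨α, β, hαβ⟩ := h3
    exact ⟨-α, β + α, by linarith⟩
  have key : ∀ (a b : ℤ) (x y : ℝ), |((d * u : ℕ) : ℝ) * x - a - y| < s →
      |((d * v : ℕ) : ℝ) * x - b - y| < t → u - v ∉ T1 y u (v * s + u * t) →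
      IsCoprime ((P y u).1 : ℤ) (u : ℤ) ∧ (u : ℤ) ∣ (P y u).2 + (P y u).1 * a := by
    intro a b x y ha hb hnT
    set n := u - v with hn
    set k : ℤ := v * a - u * b with hk
    have hnR : (n : ℝ) = u - v := by rw [hn, Nat.cast_sub hvu.le]
    have hnZ : (n : ℤ) = u - v := by rw [hn, Nat.cast_sub hvu.le]
    have hnk : |(n : ℝ) * y - k| ≤ v * s + u * t := by
      have e : (n : ℝ) * y - k = v * (((d * u : ℕ) : ℝ) * x - a - y) -
          u * (((d * v : ℕ) : ℝ) * x - b - y) + 2 * (n * y - k) -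
          (v * (((d * u : ℕ) : ℝ) * x - a - y) -
          u * (((d * v : ℕ) : ℝ) * x - b - y) + (n * y - k)) := by ring
      have e2 : (n : ℝ) * y - k = v * (((d * u : ℕ) : ℝ) * x - a - y) -
          u * (((d * v : ℕ) : ℝ) * x - b - y) := by
        rw [hnR, hk]; push_cast; ring
      rw [e2]
      calc _ ≤ |v * (((d * u : ℕ) : ℝ) * x - a - y)| + |u * (((d * v : ℕ) : ℝ) * x - b - y)| :=
            abs_sub _ _
        _ ≤ v * s + u * t := by
            rw [abs_mul, abs_mul, Nat.abs_cast, Nat.abs_cast]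
            exact add_le_add (mul_le_mul_of_nonneg_left ha.le (by positivity))
              (mul_le_mul_of_nonneg_left hb.le (by positivity))
    have hcol : ((P y u).1 : ℤ) * k = (P y u).2 * n := by
      by_contra hne
      exact hnT (mem_T1 (by omega) (by omega) hnk hne)
    obtain ⟨p1, p2, p3, p4⟩ := P_spec y u hu
    have hdvd : ((P y u).1 : ℤ) ∣ n := by
      have : ((P y u).1 : ℤ) ∣ (P y u).2 * n := ⟨_, hcol.symm⟩
      exact p3.dvd_of_dvd_mul_left this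
    obtain ⟨m, hm⟩ := hdvd
    have hg0 : ((P y u).1 : ℤ) ≠ 0 := by exact_mod_cast (by omega : (P y u).1 ≠ 0)
    have hkm : k = (P y u).2 * m := by
      apply mul_left_cancel₀ hg0
      rw [hcol, hm]; ring
    have hc2 : IsCoprime (((P y u).1 : ℤ) * m) (u : ℤ) := by rw [← hm]; exact hcop
    have hcg : IsCoprime ((P y u).1 : ℤ) (u : ℤ) := hc2.of_mul_left_left
    have hcm : IsCoprime m (u : ℤ) := hc2.of_mul_left_right
    refine ⟨hcg, ?_⟩
    have h5 : (u : ℤ) ∣ m * ((P y u).2 + (P y u).1 * a) := by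
      have e : m * ((P y u).2 + (P y u).1 * a) = u * (a - b) := by
        calc m * ((P y u).2 + (P y u).1 * a) = (P y u).2 * m + ((P y u).1 * m) * a := by ring
          _ = k + n * a := by rw [← hkm, ← hm]
          _ = u * (a - b) := by rw [hk, hnZ]; ring
      rw [e]
      exact dvd_mul_right _ _
    exact hcm.symm.dvd_of_dvd_mul_left h5
  have hT : u - v ∉ T1 y.1 u (v * s + u * t) ∧ u - v ∉ T1 y.2 u (v * s + u * t) := by
    rw [T, Finset.mem_union, not_or] at hnot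
    exact hnot
  have k1 := key a.1 b1 x.1 y.1 ha1 hb1 hT.1
  have k2 := key a.2 b2 x.2 y.2 ha2 hb2 hT.2
  exact hG u (dvd_mul_left _ _) hX ⟨k1.1, k2.1, k1.2, k2.2⟩

end Pool.Agent.W8.K2
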