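import Pool.Agent.W8.K2.Pairs

set_option autoImplicit false

open MeasureTheory Set

namespace Pool.Agent.W8.K2

theorem sym_sum {f : ℕ → ℕ → ℝ} (hf : ∀ q r, f q r = f r q) (J : Finset ℕ) :
    ∑ q ∈ J, ∑ r ∈ J, f q r = ∑ q ∈ J, f q q + 2 * ∑ q ∈ J, ∑ r ∈ J.filter (· < q), f q r := by
  classical
  have h1 : ∀ q ∈ J, ∑ r ∈ J, f q r = f q q + ∑ r ∈ J.filter (· < q), f q r +
      ∑ r ∈ J.filter (q < ·), f q r := by
    intro q hq
    rw [← Finset.sum_filter_add_sum_filter_not J (· < q)]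
    rw [← Finset.sum_filter_add_sum_filter_not (J.filter (fun r => ¬ r < q)) (· = q)]
    have e1 : (J.filter (fun r => ¬ r < q)).filter (· = q) = {q} := by
      ext r
      simp only [Finset.mem_filter, Finset.mem_singleton]
      constructor
      · rintro ⟨-, h⟩; exact h
      · rintro rfl; exact ⟨⟨hq, lt_irrefl _⟩, rfl⟩
    have e2 : (J.filter (fun r => ¬ r < q)).filter (fun r => ¬ r = q) = J.filter (q < ·) := by
      ext r
      simp only [Finset.mem_filter]
      constructor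
      · rintro ⟨⟨h1, h2⟩, h3⟩; exact ⟨h1, by omega⟩
      · rintro ⟨h1, h2⟩; exact ⟨⟨h1, by omega⟩, by omega⟩
    rw [e1, e2, Finset.sum_singleton]
    ring
  rw [Finset.sum_congr rfl h1, Finset.sum_add_distrib, Finset.sum_add_distrib]
  have h2 : ∑ q ∈ J, ∑ r ∈ J.filter (q < ·), f q r = ∑ q ∈ J, ∑ r ∈ J.filter (· < q), f q r := by
    rw [Finset.sum_comm' (t' := J) (s' := fun r => J.filter (· < r))]
    · apply Finset.sum_congr rfl
      intro r _
      apply Finset.sum_congr rfl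
      intro q _
      exact hf q r
    · intro q r
      simp only [Finset.mem_filter]
      tauto
  rw [h2]
  ring

theorem pp_self {y : ℝ × ℝ} {X q : ℕ} (hq : 1 ≤ q) {t : ℝ} (ht0 : 0 ≤ t) (ht : t ≤ 1 / 2) :
    pp y X q t q t ≤ 36 * t ^ 2 := by
  rw [pp, Measure.real, inter_self]
  refine ENNReal.toReal_le_of_le_ofReal (by positivity) ?_
  exact (measure_mono (inter_subset_inter_left _ (EG_subset_E _ _ _ _))).trans (E_up hq ht0 ht)

theorem sum_le (y : ℝ × ℝ) (X : ℕ) (J : Finset ℕ) (hJ : ∀ q ∈ J, 1 ≤ q) (ψ : ℕ → ℝ)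
    (hψ0 : ∀ q, 0 ≤ ψ q) (hψ : ∀ q, ψ q ≤ 1 / 2) :
    ∑ q ∈ J, ∑ r ∈ J, pp y X q (ψ q) r (ψ r) ≤
      41472 * (∑ q ∈ J, ψ q ^ 2) ^ 2 + (10404 + 576 * (X : ℝ) ^ 2) * ∑ q ∈ J, ψ q ^ 2 := by
  classical
  set S := ∑ q ∈ J, ψ q ^ 2 with hS
  rw [sym_sum (f := fun q r => pp y X q (ψ q) r (ψ r)) (fun q r => pp_comm _ _ _ _ _ _) J]
  have h1 : ∑ q ∈ J, pp y X q (ψ q) q (ψ q) ≤ 36 * S := by
    rw [hS, Finset.mul_sum]
    exact Finset.sum_le_sum fun q hq => pp_self (hJ q hq) (hψ0 q) (hψ q)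
  have h2 : ∑ q ∈ J, ∑ r ∈ J.filter (· < q), pp y X q (ψ q) r (ψ r) ≤
      20736 * S ^ 2 + 288 * (X : ℝ) ^ 2 * S + 288 * 9 * S + 288 * 9 * S := by
    have step : ∑ q ∈ J, ∑ r ∈ J.filter (· < q), pp y X q (ψ q) r (ψ r) ≤
        ∑ q ∈ J, ∑ r ∈ J.filter (· < q), (20736 * ψ q ^ 2 * ψ r ^ 2 +
          288 * ψ q ^ 2 * (if q / Nat.gcd q r < X then 1 else 0) +
          288 * ψ q ^ 2 * w y (ψ q) (q / Nat.gcd q r) (r / Nat.gcd q r) +
          288 * ψ r ^ 2 * w y (ψ r) (q / Nat.gcd q r) (r / Nat.gcd q r)) := by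
      apply Finset.sum_le_sum
      intro q hq
      apply Finset.sum_le_sum
      intro r hr
      rw [Finset.mem_filter] at hr
      exact pair (hJ r hr.1) hr.2 (hψ0 q) (hψ q) (hψ0 r)
    refine step.trans ?_
    simp only [Finset.sum_add_distrib]
    have a1 : ∑ q ∈ J, ∑ r ∈ J.filter (· < q), 20736 * ψ q ^ 2 * ψ r ^ 2 ≤ 20736 * S ^ 2 := by
      calc ∑ q ∈ J, ∑ r ∈ J.filter (· < q), 20736 * ψ q ^ 2 * ψ r ^ 2
          ≤ ∑ q ∈ J, ∑ r ∈ J, 20736 * ψ q ^ 2 * ψ r ^ 2 := by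
            apply Finset.sum_le_sum
            intro q _
            apply Finset.sum_le_sum_of_subset_of_nonneg (Finset.filter_subset _ _)
            intro r _ _
            positivity
        _ = 20736 * S ^ 2 := by
            rw [hS, sq, Finset.sum_mul_sum, Finset.mul_sum]
            apply Finset.sum_congr rfl
            intro q _
            rw [Finset.mul_sum]
            apply Finset.sum_congr rfl
            intro r _
            ring
    have a2 : ∑ q ∈ J, ∑ r ∈ J.filter (· < q),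
        288 * ψ q ^ 2 * (if q / Nat.gcd q r < X then (1 : ℝ) else 0) ≤ 288 * (X : ℝ) ^ 2 * S := by
      rw [hS, Finset.mul_sum]
      apply Finset.sum_le_sum
      intro q hq
      rw [← Finset.mul_sum]
      have h3 : ∑ r ∈ J.filter (· < q), (if q / Nat.gcd q r < X then (1 : ℝ) else 0) ≤
          (X : ℝ) ^ 2 := by
        rw [← Finset.sum_filter, Finset.sum_const, nsmul_eq_mul, mul_one]
        refine le_trans ?_ (count_small (X := X) (hJ q hq) J)
        have : ((J.filter (· < q)).filter (fun r => q / Nat.gcd q r < X)) ⊆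
            J.filter (fun r => 1 ≤ r ∧ r < q ∧ q / Nat.gcd q r < X) := by
          intro r hr
          rw [Finset.mem_filter, Finset.mem_filter] at hr
          rw [Finset.mem_filter]
          exact ⟨hr.1.1, hJ r hr.1.1, hr.1.2, hr.2⟩
        exact_mod_cast Finset.card_le_card this
      have h4 : 0 ≤ 288 * ψ q ^ 2 := by positivity
      calc _ ≤ 288 * ψ q ^ 2 * (X : ℝ) ^ 2 := mul_le_mul_of_nonneg_left h3 h4
        _ = 288 * (X : ℝ) ^ 2 * ψ q ^ 2 := by ring
    have a3 : ∑ q ∈ J, ∑ r ∈ J.filter (· < q),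
        288 * ψ q ^ 2 * w y (ψ q) (q / Nat.gcd q r) (r / Nat.gcd q r) ≤ 288 * 9 * S := by
      rw [hS, Finset.mul_sum]
      apply Finset.sum_le_sum
      intro q hq
      rw [← Finset.mul_sum]
      rcases (hψ0 q).eq_or_lt with h0 | h0
      · rw [← h0]; simp
      · have h3 := w_sum (y := y) h0 (J.filter (· < q))
          (fun r => (q / Nat.gcd q r, r / Nat.gcd q r)) (by
            intro r _ r' _ hrr
            simp only [Prod.mk.injEq] at hrr
            exact gcd_inj_right (hJ q hq) hrr.1 hrr.2)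
        have h4 : 0 ≤ 288 * ψ q ^ 2 := by positivity
        calc _ ≤ 288 * ψ q ^ 2 * 9 := mul_le_mul_of_nonneg_left h3 h4
          _ = 288 * 9 * ψ q ^ 2 := by ring
    have a4 : ∑ q ∈ J, ∑ r ∈ J.filter (· < q),
        288 * ψ r ^ 2 * w y (ψ r) (q / Nat.gcd q r) (r / Nat.gcd q r) ≤ 288 * 9 * S := by
      rw [Finset.sum_comm' (t' := J) (s' := fun r => J.filter (r < ·))
        (fun q r => by simp only [Finset.mem_filter]; tauto)]
      rw [hS, Finset.mul_sum]
      apply Finset.sum_le_sum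
      intro r hr
      rw [← Finset.mul_sum]
      rcases (hψ0 r).eq_or_lt with h0 | h0
      · rw [← h0]; simp
      · have h3 := w_sum (y := y) h0 (J.filter (r < ·))
          (fun q => (q / Nat.gcd q r, r / Nat.gcd q r)) (by
            intro q _ q' _ hqq
            simp only [Prod.mk.injEq] at hqq
            exact gcd_inj_left (hJ r hr) hqq.1 hqq.2)
        have h4 : 0 ≤ 288 * ψ r ^ 2 := by positivity
        calc _ ≤ 288 * ψ r ^ 2 * 9 := mul_le_mul_of_nonneg_left h3 h4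
          _ = 288 * 9 * ψ r ^ 2 := by ring
    linarith
  have hexp : 41472 * S ^ 2 + (10404 + 576 * (X : ℝ) ^ 2) * S =
      36 * S + 2 * (20736 * S ^ 2 + 288 * (X : ℝ) ^ 2 * S + 288 * 9 * S + 288 * 9 * S) := by ring
  rw [hexp]
  linarith

end Pool.Agent.W8.K2
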