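import Pool.Agent.W8.K2.Count

set_option autoImplicit false

namespace Pool.Agent.W8.K2

theorem exists_best' (y : ℝ) (N : ℕ) :
    ∃ p : ℕ × ℤ, 1 ≤ N → (1 ≤ p.1 ∧ p.1 ≤ N ∧ IsCoprime (p.1 : ℤ) p.2 ∧
      ∀ n : ℕ, 1 ≤ n → n ≤ N → ∀ k : ℤ, |(p.1 : ℝ) * y - p.2| ≤ |(n : ℝ) * y - k|) := by
  by_cases hN : 1 ≤ N
  · obtain ⟨g, h, hh⟩ := exists_best y N hN
    exact ⟨(g, h), fun _ => hh⟩
  · exact ⟨(0, 0), fun h => absurd h hN⟩

/-- the best approximation `(g, h)` to `y` with `g ≤ N` -/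
noncomputable def P (y : ℝ) (N : ℕ) : ℕ × ℤ := (exists_best' y N).choose

theorem P_spec (y : ℝ) (N : ℕ) (hN : 1 ≤ N) : 1 ≤ (P y N).1 ∧ (P y N).1 ≤ N ∧
    IsCoprime ((P y N).1 : ℤ) (P y N).2 ∧
      ∀ n : ℕ, 1 ≤ n → n ≤ N → ∀ k : ℤ, |((P y N).1 : ℝ) * y - (P y N).2| ≤ |(n : ℝ) * y - k| :=
  (exists_best' y N).choose_spec hN

open Classical in
/-- the set of `n ≤ N` with `‖n y‖ ≤ s`, provided these are not all collinear -/
noncomputable def T1 (y : ℝ) (N : ℕ) (s : ℝ) : Finset ℕ :=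
  if (∃ (n : ℕ) (k : ℤ), 1 ≤ n ∧ n ≤ N ∧ |(n : ℝ) * y - k| ≤ s ∧
      ((P y N).1 : ℤ) * k ≠ (P y N).2 * n)
  then (Finset.Icc 1 N).filter (fun n => ∃ k : ℤ, |(n : ℝ) * y - k| ≤ s) else ∅

theorem card_T1 (y : ℝ) (N : ℕ) (s : ℝ) (hN : 1 ≤ N) (hs : 0 ≤ s) :
    ((T1 y N s).card : ℝ) ≤ 15 * N * s := by
  classical
  unfold T1
  split_ifs with h
  · obtain ⟨h1, h2, h3, h4⟩ := P_spec y N hN
    have hP : |((P y N).1 : ℝ) * y - (P y N).2| ≤ s := by
      obtain ⟨n, k, a1, a2, a3, -⟩ := h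
      exact (h4 n a1 a2 k).trans a3
    have : ∀ n : ℕ, ∃ k : ℤ, (∃ k : ℤ, |(n : ℝ) * y - k| ≤ s) → |(n : ℝ) * y - k| ≤ s := by
      intro n
      by_cases hk : ∃ k : ℤ, |(n : ℝ) * y - k| ≤ s
      · exact ⟨hk.choose, fun _ => hk.choose_spec⟩
      · exact ⟨0, fun h => absurd h hk⟩
    choose κ hκ using this
    refine card_le h1 h2 h3 hP κ _ ?_ h
    intro n hn
    rw [Finset.mem_filter, Finset.mem_Icc] at hn
    exact ⟨hn.1.1, hn.1.2, hκ n hn.2⟩
  · simp
    positivity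

theorem T1_mono (y : ℝ) (N : ℕ) {s s' : ℝ} (h : s ≤ s') : T1 y N s ⊆ T1 y N s' := by
  classical
  unfold T1
  split_ifs with h1 h2 h2
  · intro n hn
    rw [Finset.mem_filter] at hn ⊢
    obtain ⟨a, k, hk⟩ := hn
    exact ⟨a, k, hk.trans h⟩
  · exfalso
    apply h2
    obtain ⟨n, k, a, b, c, d⟩ := h1
    exact ⟨n, k, a, b, c.trans h, d⟩
  · simp
  · simp

theorem mem_T1 {y : ℝ} {N : ℕ} {s : ℝ} {n : ℕ} {k : ℤ} (h1 : 1 ≤ n) (h2 : n ≤ N)
    (hk : |(n : ℝ) * y - k| ≤ s) (hne : ((P y N).1 : ℤ) * k ≠ (P y N).2 * n) :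
    n ∈ T1 y N s := by
  classical
  unfold T1
  rw [if_pos ⟨n, k, h1, h2, hk, hne⟩, Finset.mem_filter, Finset.mem_Icc]
  exact ⟨⟨h1, h2⟩, k, hk⟩

/-- two-dimensional version -/
noncomputable def T (y : ℝ × ℝ) (N : ℕ) (s : ℝ) : Finset ℕ := T1 y.1 N s ∪ T1 y.2 N s

theorem card_T (y : ℝ × ℝ) (N : ℕ) (s : ℝ) (hN : 1 ≤ N) (hs : 0 ≤ s) :
    ((T y N s).card : ℝ) ≤ 30 * N * s := by
  have h1 := card_T1 y.1 N s hN hs
  have h2 := card_T1 y.2 N s hN hs
  have h3 : ((T y N s).card : ℝ) ≤ (T1 y.1 N s).card + (T1 y.2 N s).card := by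
    exact_mod_cast Finset.card_union_le _ _
  linarith

theorem T_mono (y : ℝ × ℝ) (N : ℕ) {s s' : ℝ} (h : s ≤ s') : T y N s ⊆ T y N s' :=
  Finset.union_subset_union (T1_mono _ _ h) (T1_mono _ _ h)

/-- the bad pairs at level `t` -/
def Bad (y : ℝ × ℝ) (t : ℝ) (p : ℕ × ℕ) : Prop :=
  1 ≤ p.2 ∧ p.2 < p.1 ∧ (p.2 : ℝ) * t < 1 / 8 ∧
    ((p.1 : ℝ) * t ≤ 1 / 8 → p.1 - p.2 ∈ T y p.1 (2 * (p.1 * t)))

theorem theta_le (y : ℝ × ℝ) {t : ℝ} (ht : 0 < t) (F : Finset (ℕ × ℕ))
    (hF : ∀ p ∈ F, Bad y t p) : ∑ p ∈ F, (1 / (p.1 : ℝ) ^ 2) ≤ 9 := by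
  classical
  set Y : ℝ := 1 / (8 * t) with hY
  have hY0 : 0 < Y := by positivity
  have hYt : Y * t = 1 / 8 := by rw [hY]; field_simp
  set M : ℕ := ⌊Y⌋₊ with hM
  have hMY : (M : ℝ) ≤ Y := Nat.floor_le hY0.le
  rw [← Finset.sum_filter_add_sum_filter_not F (fun p => (p.1 : ℝ) * t ≤ 1 / 8)]
  have h1 : ∑ p ∈ F.filter (fun p => (p.1 : ℝ) * t ≤ 1 / 8), (1 / (p.1 : ℝ) ^ 2) ≤ 8 := by
    have hmaps : ∀ p ∈ F.filter (fun p => (p.1 : ℝ) * t ≤ 1 / 8), p.1 ∈ Finset.Icc 1 M := by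
      intro p hp
      rw [Finset.mem_filter] at hp
      obtain ⟨a1, a2, a3, a4⟩ := hF p hp.1
      rw [Finset.mem_Icc]
      refine ⟨by omega, ?_⟩
      rw [hM, Nat.le_floor_iff hY0.le, hY, le_div_iff₀ (by positivity)]
      linarith [hp.2]
    rw [← Finset.sum_fiberwise_of_maps_to hmaps]
    calc ∑ j ∈ Finset.Icc 1 M, ∑ p ∈ (F.filter (fun p => (p.1 : ℝ) * t ≤ 1 / 8)).filter
            (fun p => p.1 = j), (1 / (p.1 : ℝ) ^ 2)
        ≤ ∑ j ∈ Finset.Icc 1 M, 60 * t := by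
          apply Finset.sum_le_sum
          intro u hu
          rw [Finset.mem_Icc] at hu
          set S := (F.filter (fun p => (p.1 : ℝ) * t ≤ 1 / 8)).filter (fun p => p.1 = u) with hS
          have hu0 : (0 : ℝ) < u := by exact_mod_cast hu.1
          have e1 : ∑ p ∈ S, (1 / (p.1 : ℝ) ^ 2) = S.card * (1 / (u : ℝ) ^ 2) := by
            rw [Finset.sum_congr rfl (g := fun _ => (1 / (u : ℝ) ^ 2)), Finset.sum_const,
              nsmul_eq_mul]
            intro p hp
            rw [hS, Finset.mem_filter] at hp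
            rw [hp.2]
          have hc : S.card ≤ (T y u (2 * (u * t))).card := by
            apply Finset.card_le_card_of_injOn (fun p => p.1 - p.2)
            · intro p hp
              rw [Finset.mem_coe, hS, Finset.mem_filter, Finset.mem_filter] at hp
              obtain ⟨⟨b1, b2⟩, b3⟩ := hp
              obtain ⟨a1, a2, a3, a4⟩ := hF p b1
              have := a4 b2
              rw [b3] at this
              rw [Finset.mem_coe]
              simpa [b3] using this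
            · intro p hp p' hp' hpp
              rw [Finset.mem_coe, hS, Finset.mem_filter, Finset.mem_filter] at hp hp'
              obtain ⟨⟨b1, b2⟩, b3⟩ := hp
              obtain ⟨⟨b1', b2'⟩, b3'⟩ := hp'
              obtain ⟨a1, a2, a3, a4⟩ := hF p b1
              obtain ⟨a1', a2', a3', a4'⟩ := hF p' b1'
              simp only at hpp
              apply Prod.ext
              · rw [b3, b3']
              · omega
          have hcR : (S.card : ℝ) ≤ 30 * u * (2 * (u * t)) := by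
            calc (S.card : ℝ) ≤ ((T y u (2 * (u * t))).card : ℝ) := by exact_mod_cast hc
              _ ≤ _ := card_T y u _ hu.1 (by positivity)
          rw [e1]
          calc (S.card : ℝ) * (1 / (u : ℝ) ^ 2) ≤ 30 * u * (2 * (u * t)) * (1 / (u : ℝ) ^ 2) := by
                apply mul_le_mul_of_nonneg_right hcR (by positivity)
            _ = 60 * t := by field_simp; ring
      _ = M * (60 * t) := by rw [Finset.sum_const, nsmul_eq_mul, Nat.card_Icc]; simp
      _ ≤ Y * (60 * t) := by apply mul_le_mul_of_nonneg_right hMY (by positivity)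
      _ = 60 * (Y * t) := by ring
      _ ≤ 8 := by rw [hYt]; norm_num
  have h2 : ∑ p ∈ F.filter (fun p => ¬ (p.1 : ℝ) * t ≤ 1 / 8), (1 / (p.1 : ℝ) ^ 2) ≤ 1 := by
    set F2 := F.filter (fun p => ¬ (p.1 : ℝ) * t ≤ 1 / 8) with hF2
    rcases F2.eq_empty_or_nonempty with h0 | h0
    · rw [h0]; simp
    · have hv : ∀ p ∈ F2, 1 ≤ p.2 ∧ p.2 ≤ M ∧ M < p.1 := by
        intro p hp
        rw [hF2, Finset.mem_filter] at hp
        obtain ⟨a1, a2, a3, a4⟩ := hF p hp.1
        refine ⟨a1, ?_, ?_⟩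
        · rw [hM, Nat.le_floor_iff hY0.le, hY, le_div_iff₀ (by positivity)]
          linarith
        · rw [hM, Nat.floor_lt hY0.le, hY, div_lt_iff₀ (by positivity)]
          linarith [hp.2]
      have hM1 : 1 ≤ M := by
        obtain ⟨p, hp⟩ := h0
        have := hv p hp
        omega
      set U := F2.sup (fun p => p.1) with hU
      have hmaps : ∀ p ∈ F2, p.1 ∈ Finset.Ioc M U := by
        intro p hp
        rw [Finset.mem_Ioc]
        exact ⟨(hv p hp).2.2, Finset.le_sup (f := fun p : ℕ × ℕ => p.1) hp⟩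
      have hMU : M ≤ U := by
        obtain ⟨p, hp⟩ := h0
        have := Finset.mem_Ioc.1 (hmaps p hp)
        omega
      rw [← Finset.sum_fiberwise_of_maps_to hmaps]
      have hM0 : (0 : ℝ) < M := by exact_mod_cast hM1
      calc ∑ j ∈ Finset.Ioc M U, ∑ p ∈ F2.filter (fun p => p.1 = j), (1 / (p.1 : ℝ) ^ 2)
          ≤ ∑ j ∈ Finset.Ioc M U, M * (((j : ℝ) ^ 2)⁻¹) := by
            apply Finset.sum_le_sum
            intro u hu
            rw [Finset.mem_Ioc] at hu
            set S := F2.filter (fun p => p.1 = u) with hS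
            have e1 : ∑ p ∈ S, (1 / (p.1 : ℝ) ^ 2) = S.card * (1 / (u : ℝ) ^ 2) := by
              rw [Finset.sum_congr rfl (g := fun _ => (1 / (u : ℝ) ^ 2)), Finset.sum_const,
                nsmul_eq_mul]
              intro p hp
              rw [hS, Finset.mem_filter] at hp
              rw [hp.2]
            have hc : S.card ≤ (Finset.Icc 1 M).card := by
              apply Finset.card_le_card_of_injOn (fun p => p.2)
              · intro p hp
                rw [Finset.mem_coe, hS, Finset.mem_filter] at hp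
                have := hv p hp.1
                rw [Finset.mem_coe, Finset.mem_Icc]
                exact ⟨this.1, this.2.1⟩
              · intro p hp p' hp' hpp
                rw [Finset.mem_coe, hS, Finset.mem_filter] at hp hp'
                simp only at hpp
                exact Prod.ext (by rw [hp.2, hp'.2]) hpp
            rw [Nat.card_Icc] at hc
            have hcR : (S.card : ℝ) ≤ M := by
              have : S.card ≤ M := by omega
              exact_mod_cast this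
            rw [e1, one_div]
            exact mul_le_mul_of_nonneg_right hcR (by positivity)
        _ = M * ∑ j ∈ Finset.Ioc M U, (((j : ℝ) ^ 2)⁻¹) := by rw [Finset.mul_sum]
        _ ≤ M * ((M : ℝ)⁻¹ - (U : ℝ)⁻¹) := by
            apply mul_le_mul_of_nonneg_left _ hM0.le
            exact sum_Ioc_inv_sq_le_sub (by omega) hMU
        _ ≤ M * (M : ℝ)⁻¹ := by
            apply mul_le_mul_of_nonneg_left _ hM0.le
            have : (0 : ℝ) ≤ (U : ℝ)⁻¹ := by positivity
            linarith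
        _ = 1 := mul_inv_cancel₀ hM0.ne'
  linarith

end Pool.Agent.W8.K2
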